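import Pool.Agent.TH570.Hopf.Core

/-!
# The tensor of constant curvature one in the trilinear form
-/

set_option autoImplicit false

open scoped BigOperators

namespace Pool.Agent.TH570.Hopf

open Hopf6 Equiv

/-- the tensor of constant curvature one -/
def UT : Ten := fun a b c d =>
  (if a = c then 1 else 0) * (if b = d then 1 else 0) -
    (if a = d then 1 else 0) * (if b = c then 1 else 0)

theorem UT_curv : IsCurv UT := by
  refine ⟨fun a b c d => ?_, fun a b c d => ?_, fun a b c d => ?_⟩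
  · unfold UT
    ring
  · unfold UT
    simp only [eq_comm (a := c), eq_comm (a := d)]
    ring
  · unfold UT
    simp only [eq_comm (a := b) (b := a), eq_comm (a := c) (b := a), eq_comm (a := c) (b := b)]
    ring

theorem UT_perm (σ : Perm (Fin 6)) (a b c d : Fin 6) : UT (σ a) (σ b) (σ c) (σ d) = UT a b c d := by
  unfold UT
  simp only [EmbeddingLike.apply_eq_iff_eq]

theorem sum_first {n : ℕ} (g : Fin (n + 1) → ℝ) :
    ∑ e : Perm (Fin (n + 1)), g (e 0) = (n.factorial : ℝ) * ∑ q, g q := by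
  rw [← Perm.decomposeFin.symm.sum_comp, Fintype.sum_prod_type]
  simp only [Perm.decomposeFin_symm_apply_zero, Finset.sum_const, Finset.card_univ,
    Fintype.card_perm, Fintype.card_fin, nsmul_eq_mul]
  rw [Finset.mul_sum]

theorem sum01 (F : Fin 6 → Fin 6 → ℝ) :
    ∑ σ : Perm (Fin 6), F (σ 0) (σ 1) = 24 * (∑ a, ∑ b, F a b - ∑ a, F a a) := by
  rw [← Perm.decomposeFin.symm.sum_comp, Fintype.sum_prod_type]
  have h1 : ∀ (p : Fin 6) (e : Perm (Fin 5)),
      F ((Perm.decomposeFin.symm (p, e)) 0) ((Perm.decomposeFin.symm (p, e)) 1) =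
      F p (swap 0 p (e 0).succ) := by
    intro p e
    rw [Perm.decomposeFin_symm_apply_zero]
    have : (1 : Fin 6) = (0 : Fin 5).succ := rfl
    rw [this, Perm.decomposeFin_symm_apply_succ]
  simp only [h1]
  have h2 : ∀ p : Fin 6, ∑ e : Perm (Fin 5), F p (swap 0 p (e 0).succ) =
      24 * (∑ b, F p b - F p p) := by
    intro p
    rw [sum_first (fun q : Fin 5 => F p (swap 0 p q.succ))]
    have h3 : ∑ c : Fin 6, F p (swap 0 p c) = ∑ b, F p b := Equiv.sum_comp (swap 0 p) (F p)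
    rw [Fin.sum_univ_succ, swap_apply_left] at h3
    rw [← h3]
    norm_num [Nat.factorial]
  simp only [h2]
  rw [← Finset.mul_sum, Finset.sum_sub_distrib]

theorem fix2345 (ρ : Perm (Fin 6)) (h2 : ρ 2 = 2) (h3 : ρ 3 = 3) (h4 : ρ 4 = 4) (h5 : ρ 5 = 5) :
    ρ = 1 ∨ ρ = swap 0 1 := by
  have key : ∀ i : Fin 6, (i = 0 ∨ i = 1) → (ρ i = 0 ∨ ρ i = 1) := by
    intro i hi
    have n2 : ρ i ≠ 2 := fun h => by
      have := ρ.injective (h.trans h2.symm)
      rcases hi with rfl | rfl <;> exact absurd this (by decide)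
    have n3 : ρ i ≠ 3 := fun h => by
      have := ρ.injective (h.trans h3.symm)
      rcases hi with rfl | rfl <;> exact absurd this (by decide)
    have n4 : ρ i ≠ 4 := fun h => by
      have := ρ.injective (h.trans h4.symm)
      rcases hi with rfl | rfl <;> exact absurd this (by decide)
    have n5 : ρ i ≠ 5 := fun h => by
      have := ρ.injective (h.trans h5.symm)
      rcases hi with rfl | rfl <;> exact absurd this (by decide)
    rcases cases6 (ρ i) with h | h | h | h | h | h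
    · exact Or.inl h
    · exact Or.inr h
    · exact absurd h n2
    · exact absurd h n3
    · exact absurd h n4
    · exact absurd h n5
  have ne : ρ 0 ≠ ρ 1 := fun h => absurd (ρ.injective h) (by decide)
  rcases key 0 (Or.inl rfl) with h0 | h0
  · left
    have h1 : ρ 1 = 1 := by
      rcases key 1 (Or.inr rfl) with h | h
      · exact absurd (h0.trans h.symm) ne
      · exact h
    ext i
    rcases cases6 i with rfl | rfl | rfl | rfl | rfl | rfl
    · rw [h0]; rfl
    · rw [h1]; rfl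
    · rw [h2]; rfl
    · rw [h3]; rfl
    · rw [h4]; rfl
    · rw [h5]; rfl
  · right
    have h1 : ρ 1 = 0 := by
      rcases key 1 (Or.inr rfl) with h | h
      · exact h
      · exact absurd (h0.trans h.symm) ne
    have s2 : (swap (0 : Fin 6) 1) 2 = 2 := by decide
    have s3 : (swap (0 : Fin 6) 1) 3 = 3 := by decide
    have s4 : (swap (0 : Fin 6) 1) 4 = 4 := by decide
    have s5 : (swap (0 : Fin 6) 1) 5 = 5 := by decide
    ext i
    rcases cases6 i with rfl | rfl | rfl | rfl | rfl | rfl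
    · rw [h0, swap_apply_left]
    · rw [h1, swap_apply_right]
    · rw [h2, s2]
    · rw [h3, s3]
    · rw [h4, s4]
    · rw [h5, s5]

/-- indicator -/
def dd (a b : Fin 6) : ℝ := if a = b then 1 else 0

theorem G3_UT2 {T : Ten} (hT : IsCurv T) : G3 T UT UT = 192 * sc T := by
  set Φ : Perm (Fin 6) → ℝ := fun ρ => ∑ σ : Perm (Fin 6), T (σ 0) (σ 1) (σ (ρ 0)) (σ (ρ 1)) with hΦ
  have h1 : G3 T UT UT = ∑ ρ : Perm (Fin 6), sg ρ * (UT 2 3 (ρ 2) (ρ 3) * UT 4 5 (ρ 4) (ρ 5)) * Φ ρ := by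
    unfold G3
    have e1 : ∀ σ : Perm (Fin 6), ∑ τ : Perm (Fin 6), sg σ * sg τ *
        (T (σ 0) (σ 1) (τ 0) (τ 1) * UT (σ 2) (σ 3) (τ 2) (τ 3) * UT (σ 4) (σ 5) (τ 4) (τ 5)) =
        ∑ ρ : Perm (Fin 6), sg ρ * (UT 2 3 (ρ 2) (ρ 3) * UT 4 5 (ρ 4) (ρ 5)) *
          T (σ 0) (σ 1) (σ (ρ 0)) (σ (ρ 1)) := by
      intro σ
      rw [← Equiv.sum_comp (Equiv.mulLeft σ)]
      refine Finset.sum_congr rfl fun ρ _ => ?_
      simp only [Equiv.coe_mulLeft, sg_mul, Perm.mul_apply, UT_perm]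
      linear_combination (sg ρ * (T (σ 0) (σ 1) (σ (ρ 0)) (σ (ρ 1)) * UT 2 3 (ρ 2) (ρ 3) *
        UT 4 5 (ρ 4) (ρ 5))) * sg_sq σ
    simp only [e1]
    rw [Finset.sum_comm]
    refine Finset.sum_congr rfl fun ρ _ => ?_
    rw [hΦ, Finset.mul_sum]
  have s23 : sg (swap (2 : Fin 6) 3) = -1 := by
    simp [sg, Perm.sign_swap (show (2 : Fin 6) ≠ 3 by decide)]
  have s45 : sg (swap (4 : Fin 6) 5) = -1 := by
    simp [sg, Perm.sign_swap (show (4 : Fin 6) ≠ 5 by decide)]
  have h2 : ∑ ρ : Perm (Fin 6), sg ρ * (UT 2 3 (ρ 2) (ρ 3) * UT 4 5 (ρ 4) (ρ 5)) * Φ ρ =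
      2 * ∑ ρ : Perm (Fin 6), sg ρ * (dd 2 (ρ 2) * dd 3 (ρ 3) * UT 4 5 (ρ 4) (ρ 5)) * Φ ρ := by
    have e : ∑ ρ : Perm (Fin 6), sg ρ * (dd 2 (ρ 3) * dd 3 (ρ 2) * UT 4 5 (ρ 4) (ρ 5)) * Φ ρ =
        - ∑ ρ : Perm (Fin 6), sg ρ * (dd 2 (ρ 2) * dd 3 (ρ 3) * UT 4 5 (ρ 4) (ρ 5)) * Φ ρ := by
      rw [← Equiv.sum_comp (Equiv.mulRight (swap (2 : Fin 6) 3)), ← Finset.sum_neg_distrib]
      refine Finset.sum_congr rfl fun ρ _ => ?_
      have c0 : (swap (2 : Fin 6) 3) 0 = 0 := by decide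
      have c1 : (swap (2 : Fin 6) 3) 1 = 1 := by decide
      have c2 : (swap (2 : Fin 6) 3) 2 = 3 := by decide
      have c3 : (swap (2 : Fin 6) 3) 3 = 2 := by decide
      have c4 : (swap (2 : Fin 6) 3) 4 = 4 := by decide
      have c5 : (swap (2 : Fin 6) 3) 5 = 5 := by decide
      simp only [Equiv.coe_mulRight, sg_mul, Perm.mul_apply, c0, c1, c2, c3, c4, c5, s23, hΦ]
      ring
    have e' : ∑ ρ : Perm (Fin 6), sg ρ * (UT 2 3 (ρ 2) (ρ 3) * UT 4 5 (ρ 4) (ρ 5)) * Φ ρ =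
        ∑ ρ : Perm (Fin 6), sg ρ * (dd 2 (ρ 2) * dd 3 (ρ 3) * UT 4 5 (ρ 4) (ρ 5)) * Φ ρ -
        ∑ ρ : Perm (Fin 6), sg ρ * (dd 2 (ρ 3) * dd 3 (ρ 2) * UT 4 5 (ρ 4) (ρ 5)) * Φ ρ := by
      rw [← Finset.sum_sub_distrib]
      refine Finset.sum_congr rfl fun ρ _ => ?_
      have : UT 2 3 (ρ 2) (ρ 3) = dd 2 (ρ 2) * dd 3 (ρ 3) - dd 2 (ρ 3) * dd 3 (ρ 2) := rfl
      rw [this]
      ring
    rw [e', e]
    ring
  have h3 : ∑ ρ : Perm (Fin 6), sg ρ * (dd 2 (ρ 2) * dd 3 (ρ 3) * UT 4 5 (ρ 4) (ρ 5)) * Φ ρ =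
      2 * ∑ ρ : Perm (Fin 6), sg ρ * (dd 2 (ρ 2) * dd 3 (ρ 3) * (dd 4 (ρ 4) * dd 5 (ρ 5))) * Φ ρ := by
    have e : ∑ ρ : Perm (Fin 6), sg ρ * (dd 2 (ρ 2) * dd 3 (ρ 3) * (dd 4 (ρ 5) * dd 5 (ρ 4))) * Φ ρ =
        - ∑ ρ : Perm (Fin 6), sg ρ * (dd 2 (ρ 2) * dd 3 (ρ 3) * (dd 4 (ρ 4) * dd 5 (ρ 5))) * Φ ρ := by
      rw [← Equiv.sum_comp (Equiv.mulRight (swap (4 : Fin 6) 5)), ← Finset.sum_neg_distrib]
      refine Finset.sum_congr rfl fun ρ _ => ?_
      have c0 : (swap (4 : Fin 6) 5) 0 = 0 := by decide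
      have c1 : (swap (4 : Fin 6) 5) 1 = 1 := by decide
      have c2 : (swap (4 : Fin 6) 5) 2 = 2 := by decide
      have c3 : (swap (4 : Fin 6) 5) 3 = 3 := by decide
      have c4 : (swap (4 : Fin 6) 5) 4 = 5 := by decide
      have c5 : (swap (4 : Fin 6) 5) 5 = 4 := by decide
      simp only [Equiv.coe_mulRight, sg_mul, Perm.mul_apply, c0, c1, c2, c3, c4, c5, s45, hΦ]
      ring
    have e' : ∑ ρ : Perm (Fin 6), sg ρ * (dd 2 (ρ 2) * dd 3 (ρ 3) * UT 4 5 (ρ 4) (ρ 5)) * Φ ρ =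
        ∑ ρ : Perm (Fin 6), sg ρ * (dd 2 (ρ 2) * dd 3 (ρ 3) * (dd 4 (ρ 4) * dd 5 (ρ 5))) * Φ ρ -
        ∑ ρ : Perm (Fin 6), sg ρ * (dd 2 (ρ 2) * dd 3 (ρ 3) * (dd 4 (ρ 5) * dd 5 (ρ 4))) * Φ ρ := by
      rw [← Finset.sum_sub_distrib]
      refine Finset.sum_congr rfl fun ρ _ => ?_
      have : UT 4 5 (ρ 4) (ρ 5) = dd 4 (ρ 4) * dd 5 (ρ 5) - dd 4 (ρ 5) * dd 5 (ρ 4) := rfl
      rw [this]
      ring
    rw [e', e]
    ring
  have hne : (1 : Perm (Fin 6)) ≠ swap 0 1 := by
    intro h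
    have := congrArg (fun ρ : Perm (Fin 6) => ρ 0) h
    simp only [Perm.one_apply, swap_apply_left] at this
    exact absurd this (by decide)
  have h4 : ∑ ρ : Perm (Fin 6), sg ρ * (dd 2 (ρ 2) * dd 3 (ρ 3) * (dd 4 (ρ 4) * dd 5 (ρ 5))) * Φ ρ =
      Φ 1 - Φ (swap 0 1) := by
    rw [← Finset.sum_subset (Finset.subset_univ ({1, swap 0 1} : Finset (Perm (Fin 6))))]
    · rw [Finset.sum_pair hne]
      have s2 : (swap (0 : Fin 6) 1) 2 = 2 := by decide
      have s3 : (swap (0 : Fin 6) 1) 3 = 3 := by decide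
      have s4 : (swap (0 : Fin 6) 1) 4 = 4 := by decide
      have s5 : (swap (0 : Fin 6) 1) 5 = 5 := by decide
      have sg1 : sg (1 : Perm (Fin 6)) = 1 := by simp [sg]
      simp only [Perm.one_apply, s2, s3, s4, s5, sg_swap01, sg1, dd, if_true]
      ring
    · intro ρ _ hρ
      have hh : ¬ (ρ 2 = 2 ∧ ρ 3 = 3 ∧ ρ 4 = 4 ∧ ρ 5 = 5) := by
        rintro ⟨a, b, c, d⟩
        apply hρ
        rcases fix2345 ρ a b c d with h | h
        · simp [h]
        · simp [h]
      have hz : dd 2 (ρ 2) * dd 3 (ρ 3) * (dd 4 (ρ 4) * dd 5 (ρ 5)) = 0 := by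
        unfold dd
        by_cases a : (2 : Fin 6) = ρ 2
        · by_cases b : (3 : Fin 6) = ρ 3
          · by_cases c : (4 : Fin 6) = ρ 4
            · by_cases d : (5 : Fin 6) = ρ 5
              · exact absurd ⟨a.symm, b.symm, c.symm, d.symm⟩ hh
              · rw [if_neg d]; ring
            · rw [if_neg c]; ring
          · rw [if_neg b]; ring
        · rw [if_neg a]; ring
      rw [hz]
      ring
  have h5 : Φ (swap 0 1) = - Φ 1 := by
    simp only [hΦ]
    rw [← Finset.sum_neg_distrib]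
    refine Finset.sum_congr rfl fun σ _ => ?_
    rw [swap_apply_left, swap_apply_right, Perm.one_apply, Perm.one_apply,
      hT.pair (σ 1) (σ 0) (σ 0) (σ 1), hT.anti (σ 0) (σ 1)]
  have h6 : Φ 1 = 24 * sc T := by
    have e : Φ 1 = ∑ σ : Perm (Fin 6), (fun a b => T a b a b) (σ 0) (σ 1) := rfl
    rw [e]
    refine (sum01 (fun a b => T a b a b)).trans ?_
    have e2 : ∑ a, (fun a b => T a b a b) a a = 0 := by
      refine Finset.sum_eq_zero fun a _ => ?_
      have := hT.anti a a a a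
      change T a a a a = 0
      linarith
    rw [e2]
    unfold sc Rc
    ring
  rw [h1, h2, h3, h4, h5, h6]
  ring

theorem sc_UT : sc UT = 30 := by
  unfold sc Rc UT
  simp [Finset.sum_sub_distrib]
  norm_num

theorem dot4_UT {E : Ten} (ha : ∀ a b c d, E b a c d = - E a b c d)
    (hp : ∀ a b c d, E c d a b = E a b c d) : dot4 UT E = 2 * sc E := by
  have h1 : dot4 UT E = ∑ a, ∑ b, (E a b a b - E a b b a) := by
    unfold dot4 UT
    refine Finset.sum_congr rfl fun a _ => Finset.sum_congr rfl fun b _ => ?_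
    simp [sub_mul, Finset.sum_sub_distrib]
  rw [h1]
  unfold sc Rc
  rw [Finset.mul_sum]
  refine Finset.sum_congr rfl fun a _ => ?_
  rw [Finset.mul_sum]
  refine Finset.sum_congr rfl fun b _ => ?_
  have : E a b b a = - E a b a b := by
    rw [← hp a b b a, ha a b a b, hp]
  rw [this]
  ring

theorem Rc_comb (A B : Ten) (s t : ℝ) (a b : Fin 6) :
    Rc (fun a b c d => s * A a b c d + t * B a b c d) a b = s * Rc A a b + t * Rc B a b := by
  unfold Rc
  rw [Finset.sum_add_distrib, Finset.mul_sum, Finset.mul_sum]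

theorem sc_comb (A B : Ten) (s t : ℝ) :
    sc (fun a b c d => s * A a b c d + t * B a b c d) = s * sc A + t * sc B := by
  unfold sc
  simp only [Rc_comb]
  rw [Finset.sum_add_distrib, Finset.mul_sum, Finset.mul_sum]

theorem dotR_comb (A B E : Ten) (s t : ℝ) :
    dotR (fun a b c d => s * A a b c d + t * B a b c d) E = s * dotR A E + t * dotR B E := by
  unfold dotR
  simp only [Rc_comb, Finset.mul_sum]
  simp only [← Finset.sum_add_distrib]
  refine Finset.sum_congr rfl fun a _ => Finset.sum_congr rfl fun b _ => ?_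
  ring

theorem dot4_comb (A B E : Ten) (s t : ℝ) :
    dot4 (fun a b c d => s * A a b c d + t * B a b c d) E = s * dot4 A E + t * dot4 B E := by
  unfold dot4
  simp only [Finset.mul_sum]
  simp only [← Finset.sum_add_distrib]
  refine Finset.sum_congr rfl fun a _ => Finset.sum_congr rfl fun b _ =>
    Finset.sum_congr rfl fun c _ => Finset.sum_congr rfl fun d _ => ?_
  ring

theorem Rc_UT (a b : Fin 6) : Rc UT a b = if a = b then 5 else 0 := by
  unfold Rc UT
  simp only [Finset.sum_sub_distrib]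
  by_cases h : a = b
  · subst h
    simp
    norm_num
  · simp [h]

theorem dotR_UT (E : Ten) : dotR UT E = 5 * sc E := by
  unfold dotR sc
  simp only [Rc_UT]
  rw [Finset.mul_sum]
  refine Finset.sum_congr rfl fun a _ => ?_
  simp

theorem quad_comb (A B : Ten) (s t : ℝ) (x y : Fin 6 → ℝ) :
    quad (fun a b c d => s * A a b c d + t * B a b c d) x y = s * quad A x y + t * quad B x y := by
  unfold quad
  simp only [Finset.mul_sum]
  simp only [← Finset.sum_add_distrib]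
  refine Finset.sum_congr rfl fun a _ => Finset.sum_congr rfl fun b _ =>
    Finset.sum_congr rfl fun c _ => Finset.sum_congr rfl fun d _ => ?_
  ring

theorem quad_UT (x y : Fin 6 → ℝ) : quad UT x y = area2 x y := by
  have h1 : quad UT x y = ∑ a, ∑ b, (x a * y b * (x a * y b) - x a * y b * (x b * y a)) := by
    unfold quad UT
    refine Finset.sum_congr rfl fun a _ => Finset.sum_congr rfl fun b _ => ?_
    simp [sub_mul, Finset.sum_sub_distrib]
    ring
  rw [h1]
  unfold area2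
  simp only [Finset.sum_sub_distrib]
  congr 1
  · rw [Finset.sum_mul_sum]
    refine Finset.sum_congr rfl fun a _ => Finset.sum_congr rfl fun b _ => ?_
    ring
  · rw [pow_two, Finset.sum_mul_sum]
    refine Finset.sum_congr rfl fun a _ => Finset.sum_congr rfl fun b _ => ?_
    ring

theorem comb_curv {A B : Ten} (hA : IsCurv A) (hB : IsCurv B) (s t : ℝ) :
    IsCurv (fun a b c d => s * A a b c d + t * B a b c d) := by
  refine ⟨fun a b c d => ?_, fun a b c d => ?_, fun a b c d => ?_⟩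
  · simp only [hA.anti a b c d, hB.anti a b c d]
    ring
  · simp only [hA.pair a b c d, hB.pair a b c d]
  · have h1 := hA.bianchi a b c d
    have h2 := hB.bianchi a b c d
    linear_combination s * h1 + t * h2

/-- the cubic form at `s · 1 + t T` -/
theorem gb_unit_comb {T : Ten} (hT : IsCurv T) (s t : ℝ) :
    gb (fun a b c d => s * UT a b c d + t * T a b c d) =
      5760 * s ^ 3 + 576 * s ^ 2 * t * sc T + 6 * s * t ^ 2 * sc (ET T) + t ^ 3 * gb T := by
  rw [gb_comb, G3_UT2 UT_curv, sc_UT, G3_UT2 hT, G3_ET UT T, ← gb_G3]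
  have := dot4_UT (ET_anti T) (ET_pair hT.pair)
  unfold dot4 at this
  rw [this]
  ring

theorem gb_dot4 (T : Ten) : gb T = dot4 T (ET T) := by
  rw [gb_G3, G3_ET]
  rfl

/-- **The sharp linear lower bound**: curvature between `0` and `c`. -/
theorem lower_mean {R : Ten} (hR : IsCurv R) {c : ℝ} (hc : 0 ≤ c)
    (h0 : ∀ x y, 0 ≤ quad R x y) (h1 : ∀ x y, quad R x y ≤ c * area2 x y) :
    576 * c ^ 2 * sc R - 11520 * c ^ 3 ≤ gb R := by
  set T : Ten := fun a b c' d => c * UT a b c' d + (-1) * R a b c' d with hTdef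
  have hT : IsCurv T := comb_curv UT_curv hR c (-1)
  have hRT : R = fun a b c' d => c * UT a b c' d + (-1) * T a b c' d := by
    funext a b c' d
    rw [hTdef]
    ring
  have hT0 : ∀ x y, 0 ≤ quad T x y := by
    intro x y
    rw [hTdef, quad_comb, quad_UT]
    linarith [h1 x y]
  have hsc : sc T = 30 * c - sc R := by
    rw [hTdef, sc_comb, sc_UT]
    ring
  have hg := gb_unit_comb hT c (-1)
  rw [← hRT] at hg
  have hb := bil_nonneg hR hT h0 hT0
  have hE := sc_ET_nonneg hT hT0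
  have hd : dotR R (ET T) = 5 * c * sc (ET T) - dotR T (ET T) := by
    conv_lhs => rw [hRT]
    rw [dotR_comb, dotR_UT]
    ring
  have hd4 : dot4 R (ET T) = 2 * c * sc (ET T) - gb T := by
    conv_lhs => rw [hRT]
    rw [dot4_comb, dot4_UT (ET_anti T) (ET_pair hT.pair), ← gb_dot4]
    ring
  have hRR := dotR_nonneg hT0 hT hT0
  rw [hd, hd4] at hb
  rw [hg, hsc]
  have hcE : 0 ≤ c * sc (ET T) := mul_nonneg hc hE
  nlinarith

/-- **The lower bound for Ricci pinching**: curvature at least `c`, Ricci at most `14 c`. -/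
theorem lower_ric {R : Ten} (hR : IsCurv R) {c : ℝ} (hc : 0 ≤ c)
    (h0 : ∀ x y, c * area2 x y ≤ quad R x y)
    (h1 : ∀ v : Fin 6 → ℝ, ∑ a, ∑ b, Rc R a b * (v a * v b) ≤ 14 * c * ∑ a, v a ^ 2) :
    576 * c ^ 2 * sc R - 11520 * c ^ 3 ≤ gb R := by
  set T : Ten := fun a b c' d => (-c) * UT a b c' d + 1 * R a b c' d with hTdef
  have hT : IsCurv T := comb_curv UT_curv hR (-c) 1
  have hRT : R = fun a b c' d => c * UT a b c' d + 1 * T a b c' d := by
    funext a b c' d
    rw [hTdef]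
    ring
  have hT0 : ∀ x y, 0 ≤ quad T x y := by
    intro x y
    rw [hTdef, quad_comb, quad_UT]
    linarith [h0 x y]
  have hsc : sc T = sc R - 30 * c := by
    rw [hTdef, sc_comb, sc_UT]
    ring
  have hg := gb_unit_comb hT c 1
  rw [← hRT] at hg
  have hb := bil_nonneg hT hT hT0 hT0
  rw [← gb_dot4] at hb
  have hE := sc_ET_nonneg hT hT0
  -- Ricci bound
  have hric : 0 ≤ ∑ a, ∑ b, ((if a = b then 9 * c else 0) - Rc T a b) * Rc (ET T) a b := by
    refine tr_psd (fun v => ?_) (Rc_symm' (ET_pair hT.pair)) (Rc_psd (quad_ET_nonneg hT hT0))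
    have e : ∑ a, ∑ b, ((if a = b then 9 * c else 0) - Rc T a b) * (v a * v b) =
        14 * c * ∑ a, v a ^ 2 - ∑ a, ∑ b, Rc R a b * (v a * v b) := by
      have e1 : ∀ a b, ((if a = b then 9 * c else 0) - Rc T a b) * (v a * v b) =
          (if a = b then 14 * c * (v a * v b) else 0) - Rc R a b * (v a * v b) := by
        intro a b
        rw [hTdef, Rc_comb, Rc_UT]
        split_ifs <;> ring
      simp only [e1, Finset.sum_sub_distrib]
      congr 1
      rw [Finset.mul_sum]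
      refine Finset.sum_congr rfl fun a _ => ?_
      rw [Finset.sum_ite_eq Finset.univ a, if_pos (Finset.mem_univ a)]
      ring
    rw [e]
    linarith [h1 v]
  have e2 : ∑ a, ∑ b, ((if a = b then 9 * c else 0) - Rc T a b) * Rc (ET T) a b =
      9 * c * sc (ET T) - dotR T (ET T) := by
    unfold dotR sc
    simp only [sub_mul, Finset.sum_sub_distrib]
    congr 1
    rw [Finset.mul_sum]
    refine Finset.sum_congr rfl fun a _ => ?_
    simp
  rw [e2] at hric
  rw [hg, hsc]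
  nlinarith

end Pool.Agent.TH570.Hopf
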