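import Mathlib
import Pool.Agent.H933R2.Hopf.Defs

/-!
# Double alternating sums in dimension six
-/

set_option autoImplicit false

open scoped BigOperators

namespace Pool.Agent.TH570.Hopf

open Hopf6 Equiv

/-- sign of a permutation as a real number -/
noncomputable def sg {n : ℕ} (σ : Perm (Fin n)) : ℝ := ((Perm.sign σ : ℤ) : ℝ)

theorem sg_mul {n : ℕ} (σ τ : Perm (Fin n)) : sg (σ * τ) = sg σ * sg τ := by
  simp [sg, Perm.sign_mul]

theorem sg_sq {n : ℕ} (σ : Perm (Fin n)) : sg σ * sg σ = 1 := by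
  unfold sg
  rcases Int.units_eq_one_or (Perm.sign σ) with h | h <;> simp [h]

/-- the trilinear form whose diagonal is the Gauss-Bonnet-Chern integrand -/
noncomputable def G3 (A B C : Ten) : ℝ :=
  ∑ σ : Perm (Fin 6), ∑ τ : Perm (Fin 6), sg σ * sg τ *
    (A (σ 0) (σ 1) (τ 0) (τ 1) * B (σ 2) (σ 3) (τ 2) (τ 3) * C (σ 4) (σ 5) (τ 4) (τ 5))

theorem gb_G3 (R : Ten) : gb R = G3 R R R := rfl

theorem G3_reindex (A B C : Ten) (c : Perm (Fin 6)) :
    G3 A B C = ∑ σ : Perm (Fin 6), ∑ τ : Perm (Fin 6), sg σ * sg τ *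
      (A (σ (c 0)) (σ (c 1)) (τ (c 0)) (τ (c 1)) * B (σ (c 2)) (σ (c 3)) (τ (c 2)) (τ (c 3)) *
        C (σ (c 4)) (σ (c 5)) (τ (c 4)) (τ (c 5))) := by
  unfold G3
  rw [← Equiv.sum_comp (Equiv.mulRight c)]
  refine Finset.sum_congr rfl fun σ _ => ?_
  rw [← Equiv.sum_comp (Equiv.mulRight c)]
  refine Finset.sum_congr rfl fun τ _ => ?_
  simp only [Equiv.coe_mulRight, sg_mul, Perm.mul_apply]
  have := sg_sq c
  linear_combination (sg σ * sg τ * (A (σ (c 0)) (σ (c 1)) (τ (c 0)) (τ (c 1)) *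
    B (σ (c 2)) (σ (c 3)) (τ (c 2)) (τ (c 3)) * C (σ (c 4)) (σ (c 5)) (τ (c 4)) (τ (c 5)))) * this

theorem G3_swap12 (A B C : Ten) : G3 A B C = G3 B A C := by
  rw [G3_reindex A B C (swap 0 2 * swap 1 3)]
  have h0 : (swap 0 2 * swap 1 3 : Perm (Fin 6)) 0 = 2 := by decide
  have h1 : (swap 0 2 * swap 1 3 : Perm (Fin 6)) 1 = 3 := by decide
  have h2 : (swap 0 2 * swap 1 3 : Perm (Fin 6)) 2 = 0 := by decide
  have h3 : (swap 0 2 * swap 1 3 : Perm (Fin 6)) 3 = 1 := by decide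
  have h4 : (swap 0 2 * swap 1 3 : Perm (Fin 6)) 4 = 4 := by decide
  have h5 : (swap 0 2 * swap 1 3 : Perm (Fin 6)) 5 = 5 := by decide
  simp only [h0, h1, h2, h3, h4, h5]
  unfold G3
  refine Finset.sum_congr rfl fun σ _ => Finset.sum_congr rfl fun τ _ => ?_
  ring

theorem G3_swap23 (A B C : Ten) : G3 A B C = G3 A C B := by
  rw [G3_reindex A B C (swap 2 4 * swap 3 5)]
  have h0 : (swap 2 4 * swap 3 5 : Perm (Fin 6)) 0 = 0 := by decide
  have h1 : (swap 2 4 * swap 3 5 : Perm (Fin 6)) 1 = 1 := by decide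
  have h2 : (swap 2 4 * swap 3 5 : Perm (Fin 6)) 2 = 4 := by decide
  have h3 : (swap 2 4 * swap 3 5 : Perm (Fin 6)) 3 = 5 := by decide
  have h4 : (swap 2 4 * swap 3 5 : Perm (Fin 6)) 4 = 2 := by decide
  have h5 : (swap 2 4 * swap 3 5 : Perm (Fin 6)) 5 = 3 := by decide
  simp only [h0, h1, h2, h3, h4, h5]
  unfold G3
  refine Finset.sum_congr rfl fun σ _ => Finset.sum_congr rfl fun τ _ => ?_
  ring

theorem G3_add (A A' B C : Ten) (s t : ℝ) :
    G3 (fun a b c d => s * A a b c d + t * A' a b c d) B C = s * G3 A B C + t * G3 A' B C := by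
  unfold G3
  simp only [Finset.mul_sum]
  rw [← Finset.sum_add_distrib]
  refine Finset.sum_congr rfl fun σ _ => ?_
  rw [← Finset.sum_add_distrib]
  refine Finset.sum_congr rfl fun τ _ => ?_
  ring

/-- the polarised cubic form at a combination of two tensors -/
theorem gb_comb (A B : Ten) (s t : ℝ) :
    gb (fun a b c d => s * A a b c d + t * B a b c d) =
      s ^ 3 * G3 A A A + 3 * s ^ 2 * t * G3 B A A + 3 * s * t ^ 2 * G3 A B B + t ^ 3 * G3 B B B := by
  rw [gb_G3, G3_add]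
  rw [G3_swap12 A, G3_swap12 B, G3_add, G3_add]
  rw [G3_swap23 A A, G3_swap23 B A, G3_swap23 A B, G3_swap23 B B]
  rw [G3_swap12 A (fun a b c d => s * A a b c d + t * B a b c d) A,
    G3_swap12 B (fun a b c d => s * A a b c d + t * B a b c d) A,
    G3_swap12 A (fun a b c d => s * A a b c d + t * B a b c d) B,
    G3_swap12 B (fun a b c d => s * A a b c d + t * B a b c d) B]
  simp only [G3_add]
  rw [G3_swap12 A B A, G3_swap23 A A B, G3_swap12 A B A, G3_swap12 B A B, G3_swap23 B B A,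
    G3_swap12 B A B]
  ring

/-- the tensor `e_a ⊗ e_b ⊗ e_c ⊗ e_d` -/
def unitTen (a b c d : Fin 6) : Ten := fun i j k l =>
  (if i = a then 1 else 0) * (if j = b then 1 else 0) * (if k = c then 1 else 0) *
    (if l = d then 1 else 0)

/-- the tensor dual to `G3 · T T` -/
noncomputable def ET (T : Ten) : Ten := fun a b c d => G3 (unitTen a b c d) T T

theorem sum_unitTen (A : Ten) (i j k l : Fin 6) :
    ∑ a, ∑ b, ∑ c, ∑ d, A a b c d * unitTen a b c d i j k l = A i j k l := by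
  unfold unitTen
  have h : ∀ a b c d, A a b c d * ((if i = a then (1 : ℝ) else 0) * (if j = b then 1 else 0) *
      (if k = c then 1 else 0) * (if l = d then 1 else 0)) =
      if i = a then (if j = b then (if k = c then (if l = d then A a b c d else 0) else 0) else 0)
        else 0 := by
    intro a b c d
    split_ifs <;> simp
  simp only [h]
  simp

theorem G3_ET (A T : Ten) : G3 A T T = ∑ a, ∑ b, ∑ c, ∑ d, A a b c d * ET T a b c d := by
  have h : ∀ a b c d, A a b c d * ET T a b c d =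
      ∑ σ : Perm (Fin 6), ∑ τ : Perm (Fin 6), A a b c d * unitTen a b c d (σ 0) (σ 1) (τ 0) (τ 1) *
        (sg σ * sg τ * (T (σ 2) (σ 3) (τ 2) (τ 3) * T (σ 4) (σ 5) (τ 4) (τ 5))) := by
    intro a b c d
    unfold ET G3
    simp only [Finset.mul_sum]
    refine Finset.sum_congr rfl fun σ _ => Finset.sum_congr rfl fun τ _ => ?_
    ring
  simp only [h]
  have e : ∀ F : Fin 6 → Fin 6 → Fin 6 → Fin 6 → Perm (Fin 6) → Perm (Fin 6) → ℝ,
      ∑ a, ∑ b, ∑ c, ∑ d, ∑ σ, ∑ τ, F a b c d σ τ = ∑ σ, ∑ τ, ∑ a, ∑ b, ∑ c, ∑ d, F a b c d σ τ := by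
    intro F
    have e1 : ∀ a b c, ∑ d, ∑ σ, ∑ τ, F a b c d σ τ = ∑ σ, ∑ τ, ∑ d, F a b c d σ τ := by
      intro a b c
      rw [Finset.sum_comm]
      exact Finset.sum_congr rfl fun σ _ => Finset.sum_comm
    have e2 : ∀ a b, ∑ c, ∑ σ, ∑ τ, ∑ d, F a b c d σ τ = ∑ σ, ∑ τ, ∑ c, ∑ d, F a b c d σ τ := by
      intro a b
      rw [Finset.sum_comm]
      exact Finset.sum_congr rfl fun σ _ => Finset.sum_comm
    have e3 : ∀ a, ∑ b, ∑ σ, ∑ τ, ∑ c, ∑ d, F a b c d σ τ =
        ∑ σ, ∑ τ, ∑ b, ∑ c, ∑ d, F a b c d σ τ := by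
      intro a
      rw [Finset.sum_comm]
      exact Finset.sum_congr rfl fun σ _ => Finset.sum_comm
    simp only [e1, e2, e3]
    rw [Finset.sum_comm]
    exact Finset.sum_congr rfl fun σ _ => Finset.sum_comm
  rw [e]
  unfold G3
  refine Finset.sum_congr rfl fun σ _ => Finset.sum_congr rfl fun τ _ => ?_
  simp only [← Finset.sum_mul]
  rw [sum_unitTen]
  ring

theorem sg_swap01 : sg (swap (0 : Fin 6) 1) = -1 := by
  simp [sg, Perm.sign_swap (show (0 : Fin 6) ≠ 1 by decide)]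

theorem ET_anti (T : Ten) (a b c d : Fin 6) : ET T b a c d = - ET T a b c d := by
  unfold ET G3
  rw [← Equiv.sum_comp (Equiv.mulRight (swap (0 : Fin 6) 1)), ← Finset.sum_neg_distrib]
  refine Finset.sum_congr rfl fun σ _ => ?_
  rw [← Finset.sum_neg_distrib]
  refine Finset.sum_congr rfl fun τ _ => ?_
  have h0 : (swap (0 : Fin 6) 1) 0 = 1 := by decide
  have h1 : (swap (0 : Fin 6) 1) 1 = 0 := by decide
  have h2 : (swap (0 : Fin 6) 1) 2 = 2 := by decide
  have h3 : (swap (0 : Fin 6) 1) 3 = 3 := by decide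
  have h4 : (swap (0 : Fin 6) 1) 4 = 4 := by decide
  have h5 : (swap (0 : Fin 6) 1) 5 = 5 := by decide
  simp only [Equiv.coe_mulRight, sg_mul, Perm.mul_apply, h0, h1, h2, h3, h4, h5, sg_swap01]
  unfold unitTen
  ring

theorem ET_pair {T : Ten} (hp : ∀ a b c d, T c d a b = T a b c d) (a b c d : Fin 6) :
    ET T c d a b = ET T a b c d := by
  unfold ET G3
  rw [Finset.sum_comm]
  refine Finset.sum_congr rfl fun σ _ => Finset.sum_congr rfl fun τ _ => ?_
  rw [hp (σ 2) (σ 3), hp (σ 4) (σ 5)]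
  unfold unitTen
  ring

end Pool.Agent.TH570.Hopf
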