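import Pool.Agent.TH570.Hopf.Alt
import Pool.Agent.W155.HD.K4
import Pool.Agent.W140.HD.SQ4

/-!
# The dual tensor has nonnegative sectional values when `T` has
-/

set_option autoImplicit false

open scoped BigOperators

namespace Pool.Agent.TH570.Hopf

open Hopf6 Equiv

/-- value of a tensor at four vectors -/
def ev (T : Ten) (x y z w : Fin 6 → ℝ) : ℝ :=
  ∑ a, ∑ b, ∑ c, ∑ d, T a b c d * x a * y b * z c * w d

/-- scalar product -/
def dt (x y : Fin 6 → ℝ) : ℝ := ∑ a, x a * y a

theorem quad_ev (T : Ten) (x y : Fin 6 → ℝ) : quad T x y = ev T x y x y := rfl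

theorem ev_add1 (T : Ten) (x x' y z w : Fin 6 → ℝ) :
    ev T (x + x') y z w = ev T x y z w + ev T x' y z w := by
  unfold ev
  simp only [← Finset.sum_add_distrib, Pi.add_apply]
  refine Finset.sum_congr rfl fun a _ => Finset.sum_congr rfl fun b _ =>
    Finset.sum_congr rfl fun c _ => Finset.sum_congr rfl fun d _ => ?_
  ring

theorem ev_add2 (T : Ten) (x y y' z w : Fin 6 → ℝ) :
    ev T x (y + y') z w = ev T x y z w + ev T x y' z w := by
  unfold ev
  simp only [← Finset.sum_add_distrib, Pi.add_apply]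
  refine Finset.sum_congr rfl fun a _ => Finset.sum_congr rfl fun b _ =>
    Finset.sum_congr rfl fun c _ => Finset.sum_congr rfl fun d _ => ?_
  ring

theorem ev_add3 (T : Ten) (x y z z' w : Fin 6 → ℝ) :
    ev T x y (z + z') w = ev T x y z w + ev T x y z' w := by
  unfold ev
  simp only [← Finset.sum_add_distrib, Pi.add_apply]
  refine Finset.sum_congr rfl fun a _ => Finset.sum_congr rfl fun b _ =>
    Finset.sum_congr rfl fun c _ => Finset.sum_congr rfl fun d _ => ?_
  ring

theorem ev_add4 (T : Ten) (x y z w w' : Fin 6 → ℝ) :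
    ev T x y z (w + w') = ev T x y z w + ev T x y z w' := by
  unfold ev
  simp only [← Finset.sum_add_distrib, Pi.add_apply]
  refine Finset.sum_congr rfl fun a _ => Finset.sum_congr rfl fun b _ =>
    Finset.sum_congr rfl fun c _ => Finset.sum_congr rfl fun d _ => ?_
  ring

theorem ev_smul1 (T : Ten) (t : ℝ) (x y z w : Fin 6 → ℝ) :
    ev T (t • x) y z w = t * ev T x y z w := by
  unfold ev
  simp only [Finset.mul_sum, Pi.smul_apply, smul_eq_mul]
  refine Finset.sum_congr rfl fun a _ => Finset.sum_congr rfl fun b _ =>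
    Finset.sum_congr rfl fun c _ => Finset.sum_congr rfl fun d _ => ?_
  ring

theorem ev_smul2 (T : Ten) (t : ℝ) (x y z w : Fin 6 → ℝ) :
    ev T x (t • y) z w = t * ev T x y z w := by
  unfold ev
  simp only [Finset.mul_sum, Pi.smul_apply, smul_eq_mul]
  refine Finset.sum_congr rfl fun a _ => Finset.sum_congr rfl fun b _ =>
    Finset.sum_congr rfl fun c _ => Finset.sum_congr rfl fun d _ => ?_
  ring

theorem ev_smul3 (T : Ten) (t : ℝ) (x y z w : Fin 6 → ℝ) :
    ev T x y (t • z) w = t * ev T x y z w := by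
  unfold ev
  simp only [Finset.mul_sum, Pi.smul_apply, smul_eq_mul]
  refine Finset.sum_congr rfl fun a _ => Finset.sum_congr rfl fun b _ =>
    Finset.sum_congr rfl fun c _ => Finset.sum_congr rfl fun d _ => ?_
  ring

theorem ev_smul4 (T : Ten) (t : ℝ) (x y z w : Fin 6 → ℝ) :
    ev T x y z (t • w) = t * ev T x y z w := by
  unfold ev
  simp only [Finset.mul_sum, Pi.smul_apply, smul_eq_mul]
  refine Finset.sum_congr rfl fun a _ => Finset.sum_congr rfl fun b _ =>
    Finset.sum_congr rfl fun c _ => Finset.sum_congr rfl fun d _ => ?_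
  ring

theorem dt_add (x y z : Fin 6 → ℝ) : dt x (y + z) = dt x y + dt x z := by
  unfold dt
  rw [← Finset.sum_add_distrib]
  exact Finset.sum_congr rfl fun a _ => by rw [Pi.add_apply]; ring

theorem dt_smul (x : Fin 6 → ℝ) (t : ℝ) (z : Fin 6 → ℝ) : dt x (t • z) = t * dt x z := by
  unfold dt
  rw [Finset.mul_sum]
  exact Finset.sum_congr rfl fun a _ => by rw [Pi.smul_apply, smul_eq_mul]; ring

theorem ev_anti {T : Ten} (ha : ∀ a b c d, T b a c d = - T a b c d) (x y z w : Fin 6 → ℝ) :
    ev T y x z w = - ev T x y z w := by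
  unfold ev
  rw [Finset.sum_comm]
  simp only [← Finset.sum_neg_distrib]
  refine Finset.sum_congr rfl fun a _ => Finset.sum_congr rfl fun b _ =>
    Finset.sum_congr rfl fun c _ => Finset.sum_congr rfl fun d _ => ?_
  rw [ha a b c d]
  ring

theorem sum22 (F : Fin 6 → Fin 6 → Fin 6 → Fin 6 → ℝ) :
    ∑ a, ∑ b, ∑ c, ∑ d, F a b c d = ∑ c, ∑ d, ∑ a, ∑ b, F a b c d := by
  have h1 : ∀ a, ∑ b, ∑ c, ∑ d, F a b c d = ∑ c, ∑ d, ∑ b, F a b c d := by
    intro a
    rw [Finset.sum_comm]
    exact Finset.sum_congr rfl fun c _ => Finset.sum_comm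
  simp only [h1]
  rw [Finset.sum_comm]
  exact Finset.sum_congr rfl fun c _ => Finset.sum_comm

theorem ev_pair {T : Ten} (hp : ∀ a b c d, T c d a b = T a b c d) (x y z w : Fin 6 → ℝ) :
    ev T z w x y = ev T x y z w := by
  unfold ev
  rw [sum22]
  refine Finset.sum_congr rfl fun a _ => Finset.sum_congr rfl fun b _ =>
    Finset.sum_congr rfl fun c _ => Finset.sum_congr rfl fun d _ => ?_
  rw [hp a b c d]
  ring

theorem cases6 (i : Fin 6) : i = 0 ∨ i = 1 ∨ i = 2 ∨ i = 3 ∨ i = 4 ∨ i = 5 := by
  fin_cases i <;> simp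

theorem fne (a b : Fin 6) (h : a.val ≠ b.val) : a ≠ b := fun e => h (congrArg Fin.val e)

/-- the integrand of the double alternating sum -/
def KK (x y : Fin 6 → ℝ) (T : Ten) (u v : Fin 6 → Fin 6 → ℝ) : ℝ :=
  dt x (u 0) * dt y (u 1) * (dt x (v 0) * dt y (v 1)) *
    (ev T (u 2) (u 3) (v 2) (v 3) * ev T (u 4) (u 5) (v 4) (v 5))

/-- the multilinear map of the first arguments -/
noncomputable def MM (x y : Fin 6 → ℝ) (T : Ten) (v : Fin 6 → Fin 6 → ℝ) :
    MultilinearMap ℝ (fun _ : Fin 6 => (Fin 6 → ℝ)) ℝ where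
  toFun u := ∑ τ : Perm (Fin 6), sg τ * KK x y T u (fun j => v (τ j))
  map_update_add' := by
    intro _ u i p q
    rw [← Finset.sum_add_distrib]
    refine Finset.sum_congr rfl fun τ _ => ?_
    rw [← mul_add]
    congr 1
    unfold KK
    rcases cases6 i with rfl | rfl | rfl | rfl | rfl | rfl <;>
      simp only [Function.update_self, Function.update_of_ne (fne 0 1 (by decide)), Function.update_of_ne (fne 0 2 (by decide)), Function.update_of_ne (fne 0 3 (by decide)), Function.update_of_ne (fne 0 4 (by decide)), Function.update_of_ne (fne 0 5 (by decide)), Function.update_of_ne (fne 1 0 (by decide)), Function.update_of_ne (fne 1 2 (by decide)), Function.update_of_ne (fne 1 3 (by decide)), Function.update_of_ne (fne 1 4 (by decide)), Function.update_of_ne (fne 1 5 (by decide)), Function.update_of_ne (fne 2 0 (by decide)), Function.update_of_ne (fne 2 1 (by decide)), Function.update_of_ne (fne 2 3 (by decide)), Function.update_of_ne (fne 2 4 (by decide)), Function.update_of_ne (fne 2 5 (by decide)),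 Function.update_of_ne (fne 3 0 (by decide)), Function.update_of_ne (fne 3 1 (by decide)), Function.update_of_ne (fne 3 2 (by decide)), Function.update_of_ne (fne 3 4 (by decide)), Function.update_of_ne (fne 3 5 (by decide)), Function.update_of_ne (fne 4 0 (by decide)), Function.update_of_ne (fne 4 1 (by decide)), Function.update_of_ne (fne 4 2 (by decide)), Function.update_of_ne (fne 4 3 (by decide)), Function.update_of_ne (fne 4 5 (by decide)), Function.update_of_ne (fne 5 0 (by decide)), Function.update_of_ne (fne 5 1 (by decide)), Function.update_of_ne (fne 5 2 (by decide)), Function.update_of_ne (fne 5 3 (by decide)), Function.update_of_ne (fne 5 4 (by decide)), dt_add, ev_add1, ev_add2] <;> ring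
  map_update_smul' := by
    intro _ u i t p
    rw [smul_eq_mul, Finset.mul_sum]
    refine Finset.sum_congr rfl fun τ _ => ?_
    rw [mul_left_comm]
    congr 1
    unfold KK
    rcases cases6 i with rfl | rfl | rfl | rfl | rfl | rfl <;>
      simp only [Function.update_self, Function.update_of_ne (fne 0 1 (by decide)), Function.update_of_ne (fne 0 2 (by decide)), Function.update_of_ne (fne 0 3 (by decide)), Function.update_of_ne (fne 0 4 (by decide)), Function.update_of_ne (fne 0 5 (by decide)), Function.update_of_ne (fne 1 0 (by decide)), Function.update_of_ne (fne 1 2 (by decide)), Function.update_of_ne (fne 1 3 (by decide)), Function.update_of_ne (fne 1 4 (by decide)), Function.update_of_ne (fne 1 5 (by decide)), Function.update_of_ne (fne 2 0 (by decide)), Function.update_of_ne (fne 2 1 (by decide)), Function.update_of_ne (fne 2 3 (by decide)), Function.update_of_ne (fne 2 4 (by decide)), Function.update_of_ne (fne 2 5 (by decide)), Function.update_of_ne (fne 3 0 (by decide)), Function.update_of_ne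 (fne 3 1 (by decide)), Function.update_of_ne (fne 3 2 (by decide)), Function.update_of_ne (fne 3 4 (by decide)), Function.update_of_ne (fne 3 5 (by decide)), Function.update_of_ne (fne 4 0 (by decide)), Function.update_of_ne (fne 4 1 (by decide)), Function.update_of_ne (fne 4 2 (by decide)), Function.update_of_ne (fne 4 3 (by decide)), Function.update_of_ne (fne 4 5 (by decide)), Function.update_of_ne (fne 5 0 (by decide)), Function.update_of_ne (fne 5 1 (by decide)), Function.update_of_ne (fne 5 2 (by decide)), Function.update_of_ne (fne 5 3 (by decide)), Function.update_of_ne (fne 5 4 (by decide)), dt_smul, ev_smul1, ev_smul2] <;> ring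

/-- the double alternating sum -/
noncomputable def GG (x y : Fin 6 → ℝ) (T : Ten) (u v : Fin 6 → Fin 6 → ℝ) : ℝ :=
  ∑ σ : Perm (Fin 6), ∑ τ : Perm (Fin 6), sg σ * sg τ *
    KK x y T (fun j => u (σ j)) (fun j => v (τ j))

theorem GG_eq (x y : Fin 6 → ℝ) (T : Ten) (u v : Fin 6 → Fin 6 → ℝ) :
    GG x y T u v = MultilinearMap.alternatization (MM x y T v) u := by
  rw [MultilinearMap.alternatization_apply]
  unfold GG
  refine Finset.sum_congr rfl fun σ _ => ?_
  rw [Units.smul_def, zsmul_eq_mul]
  change _ = sg σ * ∑ τ : Perm (Fin 6), sg τ * KK x y T (fun j => u (σ j)) (fun j => v (τ j))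
  rw [Finset.mul_sum]
  refine Finset.sum_congr rfl fun τ _ => ?_
  ring

theorem KK_symm {T : Ten} (hp : ∀ a b c d, T c d a b = T a b c d) (x y : Fin 6 → ℝ)
    (u v : Fin 6 → Fin 6 → ℝ) : KK x y T u v = KK x y T v u := by
  unfold KK
  rw [ev_pair hp (v 2) (v 3) (u 2) (u 3), ev_pair hp (v 4) (v 5) (u 4) (u 5)]
  ring

theorem GG_symm {T : Ten} (hp : ∀ a b c d, T c d a b = T a b c d) (x y : Fin 6 → ℝ)
    (u v : Fin 6 → Fin 6 → ℝ) : GG x y T u v = GG x y T v u := by
  unfold GG
  rw [Finset.sum_comm]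
  refine Finset.sum_congr rfl fun τ _ => Finset.sum_congr rfl fun σ _ => ?_
  rw [KK_symm hp, mul_comm (sg σ)]

/-- standard basis -/
def sb (i : Fin 6) : Fin 6 → ℝ := Pi.single i 1

theorem alt_map (f : (Fin 6 → ℝ) [⋀^(Fin 6)]→ₗ[ℝ] ℝ) (W : Fin 6 → Fin 6 → ℝ) :
    f W = f sb * Matrix.det (Matrix.of W) := by
  have h1 := AlternatingMap.eq_smul_basis_det (Pi.basisFun ℝ (Fin 6)) f
  have h2 : f W = f (⇑(Pi.basisFun ℝ (Fin 6))) * (Pi.basisFun ℝ (Fin 6)).det W := by
    conv_lhs => rw [h1]
    rfl
  have h3 : (⇑(Pi.basisFun ℝ (Fin 6)) : Fin 6 → Fin 6 → ℝ) = sb := by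
    funext i
    rw [Pi.basisFun_apply]
    rfl
  rw [h2, Pi.basisFun_det_apply, h3]

theorem GG_change (x y : Fin 6 → ℝ) (T : Ten) (W v : Fin 6 → Fin 6 → ℝ) :
    GG x y T W v = GG x y T sb v * Matrix.det (Matrix.of W) := by
  rw [GG_eq, GG_eq]
  exact alt_map _ W

theorem GG_inv {T : Ten} (hp : ∀ a b c d, T c d a b = T a b c d) (x y : Fin 6 → ℝ)
    {W : Fin 6 → Fin 6 → ℝ} (hW : ∀ i j, dt (W i) (W j) = if i = j then 1 else 0) :
    GG x y T W W = GG x y T sb sb := by
  have hd : Matrix.det (Matrix.of W) * Matrix.det (Matrix.of W) = 1 := by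
    have h1 : Matrix.of W * (Matrix.of W).transpose = 1 := by
      ext i j
      rw [Matrix.mul_apply, Matrix.one_apply, ← hW i j]
      rfl
    have h2 := congrArg Matrix.det h1
    rwa [Matrix.det_mul, Matrix.det_transpose, Matrix.det_one] at h2
  rw [GG_change x y T W W, GG_symm hp x y sb W, GG_change x y T W sb, mul_assoc, hd, mul_one]

theorem dt_sb (x : Fin 6 → ℝ) (i : Fin 6) : dt x (sb i) = x i := by
  simp [dt, sb, Pi.single_apply]

theorem ev_sb (T : Ten) (i j k l : Fin 6) : ev T (sb i) (sb j) (sb k) (sb l) = T i j k l := by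
  unfold ev sb
  rw [Finset.sum_eq_single i, Finset.sum_eq_single j, Finset.sum_eq_single k,
    Finset.sum_eq_single l]
  · simp
  · intro a _ ha; simp [ha]
  · intro ha; exact absurd (Finset.mem_univ _) ha
  · intro a _ ha; simp [ha]
  · intro ha; exact absurd (Finset.mem_univ _) ha
  · intro a _ ha; simp [ha]
  · intro ha; exact absurd (Finset.mem_univ _) ha
  · intro a _ ha; simp [ha]
  · intro ha; exact absurd (Finset.mem_univ _) ha

theorem quad_ET (T : Ten) (x y : Fin 6 → ℝ) : quad (ET T) x y = GG x y T sb sb := by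
  have h1 : quad (ET T) x y = G3 (fun a b c d => x a * y b * (x c * y d)) T T := by
    rw [G3_ET]
    unfold quad
    refine Finset.sum_congr rfl fun a _ => Finset.sum_congr rfl fun b _ =>
      Finset.sum_congr rfl fun c _ => Finset.sum_congr rfl fun d _ => ?_
    ring
  rw [h1]
  unfold G3 GG KK
  refine Finset.sum_congr rfl fun σ _ => Finset.sum_congr rfl fun τ _ => ?_
  simp only [dt_sb, ev_sb]
  ring

/-! ### reduction to four indices -/

/-- extension of a permutation of the last four indices -/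
def ext (π : Perm (Fin 4)) : Perm (Fin 6) :=
  Perm.decomposeFin.symm (0, Perm.decomposeFin.symm (0, π))

theorem sum_fix0 {n : ℕ} (F : Perm (Fin (n + 1)) → ℝ) (hF : ∀ σ, σ 0 ≠ 0 → F σ = 0) :
    ∑ σ, F σ = ∑ e : Perm (Fin n), F (Perm.decomposeFin.symm (0, e)) := by
  rw [← Perm.decomposeFin.symm.sum_comp, Fintype.sum_prod_type]
  rw [Finset.sum_eq_single 0]
  · intro p _ hp
    refine Finset.sum_eq_zero fun e _ => hF _ ?_
    rw [Perm.decomposeFin_symm_apply_zero]
    exact hp
  · intro h
    exact absurd (Finset.mem_univ _) h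

theorem dec0_succ {n : ℕ} (e : Perm (Fin n)) (k : Fin n) :
    (Perm.decomposeFin.symm (0, e) : Perm (Fin (n + 1))) k.succ = (e k).succ := by
  rw [Perm.decomposeFin_symm_apply_succ, swap_self]
  rfl

theorem dec0_sign {n : ℕ} (e : Perm (Fin n)) :
    sg (Perm.decomposeFin.symm (0, e) : Perm (Fin (n + 1))) = sg e := by
  unfold sg
  rw [Perm.decomposeFin.symm_sign]
  simp

theorem sum_fix01 (F : Perm (Fin 6) → ℝ) (hF : ∀ σ, ¬ (σ 0 = 0 ∧ σ 1 = 1) → F σ = 0) :
    ∑ σ, F σ = ∑ π : Perm (Fin 4), F (ext π) := by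
  rw [sum_fix0 F fun σ h => hF σ fun h' => h h'.1]
  rw [sum_fix0 (n := 4) (fun e => F (Perm.decomposeFin.symm (0, e)))]
  · rfl
  · intro e he
    refine hF _ fun h' => he ?_
    have h2 := h'.2
    have h3 : (1 : Fin 6) = (0 : Fin 5).succ := rfl
    rw [h3, dec0_succ] at h2
    exact Fin.succ_injective _ h2

theorem ext_zero (π : Perm (Fin 4)) : ext π 0 = 0 := by
  unfold ext
  rw [Perm.decomposeFin_symm_apply_zero]

theorem ext_one (π : Perm (Fin 4)) : ext π 1 = 1 := by
  have h3 : (1 : Fin 6) = (0 : Fin 5).succ := rfl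
  unfold ext
  rw [h3, dec0_succ, Perm.decomposeFin_symm_apply_zero]

theorem ext_ss (π : Perm (Fin 4)) (k : Fin 4) : ext π k.succ.succ = (π k).succ.succ := by
  unfold ext
  rw [dec0_succ, dec0_succ]

theorem ext_sg (π : Perm (Fin 4)) : sg (ext π) = sg π := by
  unfold ext
  rw [dec0_sign, dec0_sign]

open Pool.Agent.W669.HD in
/-- the value in an adapted orthonormal frame -/
theorem GG_adapted (T : Ten) {W : Fin 6 → Fin 6 → ℝ}
    (hW : ∀ i j, dt (W i) (W j) = if i = j then 1 else 0) :
    GG (W 0) (W 1) T W W =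
      kap (fun i j k l => ev T (W i.succ.succ) (W j.succ.succ) (W k.succ.succ) (W l.succ.succ)) := by
  unfold GG KK
  rw [sum_fix01]
  · unfold kap
    refine Finset.sum_congr rfl fun π _ => ?_
    rw [sum_fix01]
    · refine Finset.sum_congr rfl fun π' _ => ?_
      simp only [ext_zero, ext_one, ext_sg]
      have h2 : ∀ π : Perm (Fin 4), ext π 2 = (π 0).succ.succ := fun π => ext_ss π 0
      have h3 : ∀ π : Perm (Fin 4), ext π 3 = (π 1).succ.succ := fun π => ext_ss π 1
      have h4 : ∀ π : Perm (Fin 4), ext π 4 = (π 2).succ.succ := fun π => ext_ss π 2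
      have h5 : ∀ π : Perm (Fin 4), ext π 5 = (π 3).succ.succ := fun π => ext_ss π 3
      simp only [h2, h3, h4, h5, hW, if_true]
      rw [sn_def, sn_def]
      unfold sg
      ring
    · intro τ hτ
      simp only [hW]
      by_cases h0 : (0 : Fin 6) = τ 0
      · by_cases h1 : (1 : Fin 6) = τ 1
        · exact absurd ⟨h0.symm, h1.symm⟩ hτ
        · rw [if_neg h1]; ring
      · rw [if_neg h0]; ring
  · intro σ hσ
    refine Finset.sum_eq_zero fun τ _ => ?_
    simp only [hW]
    by_cases h0 : (0 : Fin 6) = σ 0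
    · by_cases h1 : (1 : Fin 6) = σ 1
      · exact absurd ⟨h0.symm, h1.symm⟩ hσ
      · rw [if_neg h1]; ring
    · rw [if_neg h0]; ring

theorem ev_sum {T : Ten} {n : ℕ} (f : Fin n → Fin 6 → ℝ) (x y z w : Fin n → ℝ) :
    ev T (∑ i, x i • f i) (∑ i, y i • f i) (∑ i, z i • f i) (∑ i, w i • f i) =
      ∑ i, ∑ j, ∑ k, ∑ l, ev T (f i) (f j) (f k) (f l) * (x i * y j * z k * w l) := by
  have z1 : ∀ y z w, ev T 0 y z w = 0 := fun y z w => by simp [ev]
  have z2 : ∀ y z w, ev T y 0 z w = 0 := fun y z w => by simp [ev]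
  have z3 : ∀ y z w, ev T y z 0 w = 0 := fun y z w => by simp [ev]
  have z4 : ∀ y z w, ev T y z w 0 = 0 := fun y z w => by simp [ev]
  have s1 : ∀ (s : Finset (Fin n)) y z w, ev T (∑ i ∈ s, x i • f i) y z w =
      ∑ i ∈ s, x i * ev T (f i) y z w := by
    intro s y z w
    induction s using Finset.cons_induction with
    | empty => simp [z1]
    | cons a s ha ih => rw [Finset.sum_cons, Finset.sum_cons, ev_add1, ev_smul1, ih]
  have s2 : ∀ (s : Finset (Fin n)) x z w, ev T x (∑ i ∈ s, y i • f i) z w =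
      ∑ i ∈ s, y i * ev T x (f i) z w := by
    intro s x z w
    induction s using Finset.cons_induction with
    | empty => simp [z2]
    | cons a s ha ih => rw [Finset.sum_cons, Finset.sum_cons, ev_add2, ev_smul2, ih]
  have s3 : ∀ (s : Finset (Fin n)) x y w, ev T x y (∑ i ∈ s, z i • f i) w =
      ∑ i ∈ s, z i * ev T x y (f i) w := by
    intro s x y w
    induction s using Finset.cons_induction with
    | empty => simp [z3]
    | cons a s ha ih => rw [Finset.sum_cons, Finset.sum_cons, ev_add3, ev_smul3, ih]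
  have s4 : ∀ (s : Finset (Fin n)) x y z, ev T x y z (∑ i ∈ s, w i • f i) =
      ∑ i ∈ s, w i * ev T x y z (f i) := by
    intro s x y z
    induction s using Finset.cons_induction with
    | empty => simp [z4]
    | cons a s ha ih => rw [Finset.sum_cons, Finset.sum_cons, ev_add4, ev_smul4, ih]
  rw [s1]
  refine Finset.sum_congr rfl fun i _ => ?_
  rw [s2, Finset.mul_sum]
  refine Finset.sum_congr rfl fun j _ => ?_
  rw [s3, Finset.mul_sum, Finset.mul_sum]
  refine Finset.sum_congr rfl fun k _ => ?_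
  rw [s4, Finset.mul_sum, Finset.mul_sum, Finset.mul_sum]
  refine Finset.sum_congr rfl fun l _ => ?_
  ring

open Pool.Agent.W669.HD in
/-- the four dimensional Gauss-Bonnet inequality -/
theorem kap_nonneg {P : Q4} (hP : Cur4 P) (hS : Sec4 P) : 0 ≤ kap P := by
  obtain ⟨t, n, μ, hμ, h⟩ := Pool.Agent.W140.HD.SQ4.sq4 P hP hS
  obtain ⟨h1, h2, h3⟩ := Pool.Agent.W155.HD.K4.k4 P _ t n μ hP (fun i j k l => rfl) hμ h
  linarith

open Pool.Agent.W669.HD in
/-- nonnegative sectional curvature of `T` gives nonnegative values of the dual tensor on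
orthonormal pairs (which are part of an orthonormal frame) -/
theorem quad_ET_frame {T : Ten} (hT : IsCurv T) (h0 : ∀ x y, 0 ≤ quad T x y)
    {W : Fin 6 → Fin 6 → ℝ} (hW : ∀ i j, dt (W i) (W j) = if i = j then 1 else 0) :
    0 ≤ quad (ET T) (W 0) (W 1) := by
  rw [quad_ET, ← GG_inv hT.pair _ _ hW, GG_adapted T hW]
  refine kap_nonneg ⟨fun i j k l => ev_anti hT.anti _ _ _ _,
    fun i j k l => ev_pair hT.pair _ _ _ _, fun i j k l => ?_⟩ ?_
  · have h : ∀ x y z w : Fin 6 → ℝ, ev T x y z w + ev T y z x w + ev T z x y w = 0 := by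
      intro x y z w
      have e1 : ev T y z x w = ∑ a, ∑ b, ∑ c, ∑ d, T b c a d * x a * y b * z c * w d := by
        unfold ev
        have : ∀ F : Fin 6 → Fin 6 → Fin 6 → ℝ, ∑ b, ∑ c, ∑ a, F a b c = ∑ a, ∑ b, ∑ c, F a b c := by
          intro F
          have h1 : ∀ b, ∑ c, ∑ a, F a b c = ∑ a, ∑ c, F a b c := fun b => Finset.sum_comm
          simp only [h1]
          exact Finset.sum_comm
        rw [this fun a b c => ∑ d, T b c a d * y b * z c * x a * w d]
        refine Finset.sum_congr rfl fun a _ => Finset.sum_congr rfl fun b _ =>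
          Finset.sum_congr rfl fun c _ => Finset.sum_congr rfl fun d _ => ?_
        ring
      have e2 : ev T z x y w = ∑ a, ∑ b, ∑ c, ∑ d, T c a b d * x a * y b * z c * w d := by
        unfold ev
        have : ∀ F : Fin 6 → Fin 6 → Fin 6 → ℝ, ∑ c, ∑ a, ∑ b, F a b c = ∑ a, ∑ b, ∑ c, F a b c := by
          intro F
          rw [Finset.sum_comm]
          exact Finset.sum_congr rfl fun a _ => Finset.sum_comm
        rw [this fun a b c => ∑ d, T c a b d * z c * x a * y b * w d]
        refine Finset.sum_congr rfl fun a _ => Finset.sum_congr rfl fun b _ =>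
          Finset.sum_congr rfl fun c _ => Finset.sum_congr rfl fun d _ => ?_
        ring
      rw [e1, e2]
      unfold ev
      simp only [← Finset.sum_add_distrib]
      refine Finset.sum_eq_zero fun a _ => Finset.sum_eq_zero fun b _ =>
        Finset.sum_eq_zero fun c _ => Finset.sum_eq_zero fun d _ => ?_
      linear_combination (x a * y b * z c * w d) * hT.bianchi a b c d
    exact h _ _ _ _
  · intro x y
    have h1 := h0 (∑ i, x i • W (i.succ.succ)) (∑ i, y i • W (i.succ.succ))
    rw [quad_ev, ev_sum] at h1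
    exact h1

end Pool.Agent.TH570.Hopf
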