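import Pool.Agent.TH570.Hopf.Chg
import Pool.Agent.H933R2.Hopf.Mean

/-!
# The bilinear inequality and the sharp linear lower bound
-/

set_option autoImplicit false

open scoped BigOperators

namespace Pool.Agent.TH570.Hopf

open Hopf6 Equiv

theorem dt_comm (x y : Fin 6 → ℝ) : dt x y = dt y x :=
  Finset.sum_congr rfl fun _ _ => mul_comm _ _

/-- an orthonormal pair is part of an orthonormal frame -/
theorem exists_frame01 {x y : Fin 6 → ℝ} (hx : dt x x = 1) (hy : dt y y = 1) (hxy : dt x y = 0) :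
    ∃ W : Fin 6 → Fin 6 → ℝ, (∀ i j, dt (W i) (W j) = if i = j then 1 else 0) ∧
      W 0 = x ∧ W 1 = y := by
  classical
  let E := EuclideanSpace ℝ (Fin 6)
  have hin : ∀ u v : Fin 6 → ℝ, inner ℝ (WithLp.toLp 2 u : E) (WithLp.toLp 2 v : E) = dt u v := by
    intro u v
    rw [PiLp.inner_apply]
    unfold dt
    refine Finset.sum_congr rfl fun a _ => ?_
    simp only [RCLike.inner_apply, conj_trivial]
    ring
  let v : Fin 6 → E := fun i => if i = 0 then WithLp.toLp 2 x else WithLp.toLp 2 y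
  have v0 : v 0 = WithLp.toLp 2 x := if_pos rfl
  have v1 : v 1 = WithLp.toLp 2 y := if_neg (by decide)
  have h10 : (1 : Fin 6) ≠ 0 := by decide
  have hv : Orthonormal ℝ (({0, 1} : Set (Fin 6)).restrict v) := by
    rw [orthonormal_iff_ite]
    rintro ⟨i, hi⟩ ⟨j, hj⟩
    change inner ℝ (v i) (v j) = _
    simp only [Subtype.mk.injEq]
    rcases hi with hi | hi <;> rcases hj with hj | hj
    · subst hi hj
      rw [v0, hin, hx, if_pos rfl]
    · rw [Set.mem_singleton_iff] at hj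
      subst hi hj
      rw [v0, v1, hin, hxy, if_neg h10.symm]
    · rw [Set.mem_singleton_iff] at hi
      subst hi hj
      rw [v0, v1, hin, dt_comm y x, hxy, if_neg h10]
    · rw [Set.mem_singleton_iff] at hi hj
      subst hi hj
      rw [v1, hin, hy, if_pos rfl]
  obtain ⟨b, hb⟩ := hv.exists_orthonormalBasis_extension_of_card_eq (by simp [E])
  refine ⟨fun i => (b i).ofLp, ?_, ?_, ?_⟩
  · intro i j
    have h1 := b.orthonormal
    rw [orthonormal_iff_ite] at h1
    rw [← h1 i j, ← hin]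
  · have h := hb 0 (by simp)
    change (b 0).ofLp = x
    rw [h]
    simp [v]
  · have h := hb 1 (by simp)
    change (b 1).ofLp = y
    rw [h]
    simp [v]

theorem ev_self {E : Ten} (ha : ∀ a b c d, E b a c d = - E a b c d) (x z w : Fin 6 → ℝ) :
    ev E x x z w = 0 := by
  have := ev_anti ha x x z w
  linarith

/-- nonnegative sectional curvature of `T` gives nonnegative values of the dual tensor -/
theorem quad_ET_nonneg {T : Ten} (hT : IsCurv T) (h0 : ∀ x y, 0 ≤ quad T x y)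
    (x y : Fin 6 → ℝ) : 0 ≤ quad (ET T) x y := by
  have ha := ET_anti T
  have hp := ET_pair hT.pair
  have hs : ∀ x z w, ev (ET T) x x z w = 0 := ev_self ha
  have hs' : ∀ x z w, ev (ET T) z w x x = 0 := fun x z w => by
    rw [ev_pair hp x x z w, hs]
  have nn : ∀ z : Fin 6 → ℝ, 0 ≤ dt z z := fun z =>
    Finset.sum_nonneg fun a _ => mul_self_nonneg _
  have nz : ∀ z : Fin 6 → ℝ, dt z z = 0 → z = 0 := by
    intro z hz
    funext a
    have h1 := (Finset.sum_eq_zero_iff_of_nonneg fun a _ => mul_self_nonneg (z a)).1 hz a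
      (Finset.mem_univ a)
    exact mul_self_eq_zero.1 h1
  rw [quad_ev]
  rcases (nn x).eq_or_lt with h | h
  · rw [nz x h.symm]
    have : ev (ET T) 0 y 0 y = 0 := by simp [ev]
    rw [this]
  set r := Real.sqrt (dt x x) with hr
  have hr0 : 0 < r := Real.sqrt_pos.2 h
  have hrr : r * r = dt x x := Real.mul_self_sqrt h.le
  set x' : Fin 6 → ℝ := r⁻¹ • x with hx'
  have hxx' : x = r • x' := by
    rw [hx', smul_smul, mul_inv_cancel₀ hr0.ne', one_smul]
  have hx1 : dt x' x' = 1 := by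
    have : dt x' x' = r⁻¹ * (r⁻¹ * dt x x) := by
      rw [hx', dt_smul, dt_comm, dt_smul]
    rw [this, ← hrr]
    field_simp
  set t := dt x' y with ht
  set z : Fin 6 → ℝ := y + (-t) • x' with hz
  have hy : y = z + t • x' := by
    rw [hz, add_assoc, ← add_smul, neg_add_cancel, zero_smul, add_zero]
  have hxz : dt x' z = 0 := by
    rw [hz, dt_add, dt_smul, hx1, ← ht]
    ring
  have e0 : ev (ET T) x y x y = r ^ 2 * ev (ET T) x' z x' z := by
    rw [hxx', hy]
    simp only [ev_smul1, ev_smul3, ev_add2, ev_add4, ev_smul2, ev_smul4, hs, hs']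
    ring
  rw [e0]
  refine mul_nonneg (by positivity) ?_
  rcases (nn z).eq_or_lt with h1 | h1
  · rw [nz z h1.symm]
    have : ev (ET T) x' 0 x' 0 = 0 := by simp [ev]
    rw [this]
  set s := Real.sqrt (dt z z) with hs1
  have hs0 : 0 < s := Real.sqrt_pos.2 h1
  have hss : s * s = dt z z := Real.mul_self_sqrt h1.le
  set z' : Fin 6 → ℝ := s⁻¹ • z with hz'
  have hzz' : z = s • z' := by
    rw [hz', smul_smul, mul_inv_cancel₀ hs0.ne', one_smul]
  have hz1 : dt z' z' = 1 := by
    have : dt z' z' = s⁻¹ * (s⁻¹ * dt z z) := by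
      rw [hz', dt_smul, dt_comm, dt_smul]
    rw [this, ← hss]
    field_simp
  have hxz' : dt x' z' = 0 := by rw [hz', dt_smul, hxz, mul_zero]
  obtain ⟨W, hW, hW0, hW1⟩ := exists_frame01 hx1 hz1 hxz'
  have h2 := quad_ET_frame hT h0 hW
  rw [hW0, hW1, quad_ev] at h2
  rw [hzz']
  simp only [ev_smul2, ev_smul4]
  exact mul_nonneg hs0.le (mul_nonneg hs0.le h2)

/-- trace of a product of positive semidefinite matrices -/
theorem tr_psd {A B : Fin 6 → Fin 6 → ℝ} (hA : ∀ v : Fin 6 → ℝ, 0 ≤ ∑ a, ∑ b, A a b * (v a * v b))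
    (hBs : ∀ a b, B b a = B a b) (hB : ∀ v : Fin 6 → ℝ, 0 ≤ ∑ a, ∑ b, B a b * (v a * v b)) :
    0 ≤ ∑ a, ∑ b, A a b * B a b := by
  classical
  have hM : (Matrix.of B).PosSemidef := by
    refine Matrix.PosSemidef.of_dotProduct_mulVec_nonneg ?_ ?_
    · ext a b
      simp [Matrix.conjTranspose_apply, hBs]
    · intro v
      have h := hB v
      have e : star v ⬝ᵥ ((Matrix.of B).mulVec v) = ∑ a, ∑ b, B a b * (v a * v b) := by
        simp only [dotProduct, Matrix.mulVec, Pi.star_apply, star_trivial, Matrix.of_apply,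
          Finset.mul_sum]
        refine Finset.sum_congr rfl fun a _ => Finset.sum_congr rfl fun b _ => ?_
        ring
      rw [e]
      exact h
  obtain ⟨m, C, hC⟩ := Matrix.posSemidef_iff_eq_sum_vecMulVec.1 hM
  have hB' : ∀ a b, B a b = ∑ k, C k a * C k b := by
    intro a b
    have h := congrFun (congrFun hC a) b
    rw [Matrix.sum_apply] at h
    simpa [Matrix.vecMulVec_apply] using h
  have e : ∑ a, ∑ b, A a b * B a b = ∑ k, ∑ a, ∑ b, A a b * (C k a * C k b) := by
    simp only [hB', Finset.mul_sum]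
    have h1 : ∀ a, ∑ b, ∑ k, A a b * (C k a * C k b) = ∑ k, ∑ b, A a b * (C k a * C k b) :=
      fun a => Finset.sum_comm
    simp only [h1]
    exact Finset.sum_comm
  rw [e]
  exact Finset.sum_nonneg fun k _ => hA _

/-- `⟨A, E⟩` -/
def dot4 (A E : Ten) : ℝ := ∑ a, ∑ b, ∑ c, ∑ d, A a b c d * E a b c d
/-- `⟨Ric A, Ric E⟩` -/
def dotR (A E : Ten) : ℝ := ∑ a, ∑ b, Rc A a b * Rc E a b

theorem Jm_symm' {E : Ten} (hp : ∀ a b c d, E c d a b = E a b c d) (x : Fin 6 → ℝ) (a b : Fin 6) :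
    Jm E x b a = Jm E x a b := by
  unfold Jm
  rw [Finset.sum_comm]
  refine Finset.sum_congr rfl fun p _ => Finset.sum_congr rfl fun q _ => ?_
  rw [hp p a q b]
  ring

theorem Rc_alt {E : Ten} (ha : ∀ a b c d, E b a c d = - E a b c d)
    (hp : ∀ a b c d, E c d a b = E a b c d) (a b : Fin 6) : ∑ p, E p a p b = Rc E a b := by
  unfold Rc
  refine Finset.sum_congr rfl fun p _ => ?_
  rw [ha a p p b, ← hp a p p b, ha b p a p, hp b p a p]
  ring

theorem av_JJ_bil {ι : Type} [Fintype ι] (D : Design ι) {A E : Ten} (hA : IsCurv A)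
    (ha : ∀ a b c d, E b a c d = - E a b c d) (hp : ∀ a b c d, E c d a b = E a b c d) :
    D.av (fun x => ∑ a, ∑ b, Jm A x a b * Jm E x a b) =
      1 / 48 * (dotR A E + 3 / 2 * dot4 A E) := by
  have h1 : D.av (fun x => ∑ a, ∑ b, Jm A x a b * Jm E x a b) =
      ∑ a, ∑ b, D.av (fun x => Design.qf (fun p q => A p a q b) x *
        Design.qf (fun p q => E p a q b) x) := by
    unfold Design.av
    simp only [Finset.mul_sum]
    rw [Finset.sum_comm]
    refine Finset.sum_congr rfl fun a _ => ?_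
    rw [Finset.sum_comm]
    rfl
  rw [h1]
  simp only [D.quad2]
  have hthird : ∑ a, ∑ b, ∑ p, ∑ q, A p a q b * E q a p b = 1 / 2 * dot4 A E := by
    have h2 : ∑ a, ∑ b, ∑ p, ∑ q, A p a q b * E q a p b =
        ∑ i, ∑ j, ∑ k, ∑ l, A k j i l * E i j k l := by
      have : ∀ F : Fin 6 → Fin 6 → Fin 6 → Fin 6 → ℝ,
          ∑ a, ∑ b, ∑ p, ∑ q, F a b p q = ∑ q, ∑ a, ∑ p, ∑ b, F a b p q := by
        intro F
        have e1 : ∀ a b, ∑ p, ∑ q, F a b p q = ∑ q, ∑ p, F a b p q := fun a b => Finset.sum_comm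
        simp only [e1]
        have e2 : ∀ a, ∑ b, ∑ q, ∑ p, F a b p q = ∑ q, ∑ b, ∑ p, F a b p q :=
          fun a => Finset.sum_comm
        simp only [e2]
        rw [Finset.sum_comm]
        refine Finset.sum_congr rfl fun q _ => Finset.sum_congr rfl fun a _ => Finset.sum_comm
      rw [this]
    have h3 : ∑ i, ∑ j, ∑ k, ∑ l, A k j i l * E i j k l =
        - ∑ i, ∑ j, ∑ k, ∑ l, A k i j l * E i j k l := by
      rw [Finset.sum_comm]
      simp only [← Finset.sum_neg_distrib]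
      refine Finset.sum_congr rfl fun i _ => Finset.sum_congr rfl fun j _ =>
        Finset.sum_congr rfl fun k _ => Finset.sum_congr rfl fun l _ => ?_
      rw [ha i j k l]
      ring
    have h4 : ∑ i, ∑ j, ∑ k, ∑ l, A k j i l * E i j k l -
        ∑ i, ∑ j, ∑ k, ∑ l, A k i j l * E i j k l = dot4 A E := by
      unfold dot4
      simp only [← Finset.sum_sub_distrib]
      refine Finset.sum_congr rfl fun i _ => Finset.sum_congr rfl fun j _ =>
        Finset.sum_congr rfl fun k _ => Finset.sum_congr rfl fun l _ => ?_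
      have hb := hA.bianchi k j i l
      have e1 := hA.anti i j k l
      have e2 := hA.anti k i j l
      rw [← sub_mul]
      congr 1
      linarith
    rw [h2]
    linarith
  have hsec : ∑ a, ∑ b, ∑ p, ∑ q, A p a q b * E p a q b = dot4 A E := by
    unfold dot4
    have : ∀ F : Fin 6 → Fin 6 → Fin 6 → Fin 6 → ℝ,
        ∑ a, ∑ b, ∑ p, ∑ q, F a b p q = ∑ p, ∑ a, ∑ q, ∑ b, F a b p q := by
      intro F
      have e2 : ∀ a, ∑ b, ∑ p, ∑ q, F a b p q = ∑ p, ∑ b, ∑ q, F a b p q :=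
        fun a => Finset.sum_comm
      simp only [e2]
      rw [Finset.sum_comm]
      refine Finset.sum_congr rfl fun q _ => Finset.sum_congr rfl fun a _ => Finset.sum_comm
    rw [this]
  have hfst : ∑ a, ∑ b, ∑ p, ∑ q, A p a p b * E q a q b = dotR A E := by
    unfold dotR
    refine Finset.sum_congr rfl fun a _ => Finset.sum_congr rfl fun b _ => ?_
    rw [← Rc_alt hA.anti hA.pair a b, ← Rc_alt ha hp a b, Finset.sum_mul_sum]
  rw [← hfst, ← hsec]
  have h5 : 3 / 2 * ∑ a, ∑ b, ∑ p, ∑ q, A p a q b * E p a q b =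
      ∑ a, ∑ b, ∑ p, ∑ q, A p a q b * E p a q b + ∑ a, ∑ b, ∑ p, ∑ q, A p a q b * E q a p b := by
    rw [hthird, hsec]
    ring
  rw [h5]
  simp only [← Finset.mul_sum, Finset.sum_add_distrib]
  ring

/-- **The bilinear inequality.** -/
theorem bil_nonneg {A T : Ten} (hA : IsCurv A) (hT : IsCurv T) (hA0 : ∀ x y, 0 ≤ quad A x y)
    (hT0 : ∀ x y, 0 ≤ quad T x y) : 0 ≤ dotR A (ET T) + 3 / 2 * dot4 A (ET T) := by
  obtain ⟨ι, _, ⟨D⟩⟩ := exists_design
  have h1 := D.av_nonneg (φ := fun x => ∑ a, ∑ b, Jm A x a b * Jm (ET T) x a b) fun i => by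
    refine tr_psd (fun v => ?_) (fun a b => Jm_symm' (ET_pair hT.pair) _ a b) (fun v => ?_)
    · rw [← quad_J]
      exact hA0 _ _
    · rw [← quad_J]
      exact quad_ET_nonneg hT hT0 _ _
  rw [av_JJ_bil D hA (ET_anti T) (ET_pair hT.pair)] at h1
  linarith

/-! ### Ricci terms -/

theorem Rc_quad {E : Ten} (v : Fin 6 → ℝ) :
    ∑ a, ∑ b, Rc E a b * (v a * v b) = ∑ c, quad E v (sb c) := by
  have h : ∀ c, quad E v (sb c) = ∑ a, ∑ b, E a c b c * (v a * v b) := by
    intro c
    unfold quad sb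
    refine Finset.sum_congr rfl fun a _ => ?_
    rw [Finset.sum_eq_single c]
    · refine Finset.sum_congr rfl fun b _ => ?_
      rw [Finset.sum_eq_single c]
      · simp
        ring
      · intro d _ hd
        simp [hd]
      · intro hd
        exact absurd (Finset.mem_univ _) hd
    · intro b _ hb
      simp [hb]
    · intro hd
      exact absurd (Finset.mem_univ _) hd
  simp only [h]
  symm
  rw [Finset.sum_comm]
  refine Finset.sum_congr rfl fun a _ => ?_
  rw [Finset.sum_comm]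
  refine Finset.sum_congr rfl fun b _ => ?_
  unfold Rc
  rw [Finset.sum_mul]

theorem Rc_symm' {E : Ten} (hp : ∀ a b c d, E c d a b = E a b c d) (a b : Fin 6) :
    Rc E b a = Rc E a b := Finset.sum_congr rfl fun c _ => hp a c b c

theorem Rc_psd {E : Ten} (h : ∀ x y, 0 ≤ quad E x y) (v : Fin 6 → ℝ) :
    0 ≤ ∑ a, ∑ b, Rc E a b * (v a * v b) := by
  rw [Rc_quad]
  exact Finset.sum_nonneg fun c _ => h _ _

theorem sc_ET_nonneg {T : Ten} (hT : IsCurv T) (hT0 : ∀ x y, 0 ≤ quad T x y) : 0 ≤ sc (ET T) := by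
  unfold sc
  refine Finset.sum_nonneg fun a _ => ?_
  have h := Rc_psd (quad_ET_nonneg hT hT0) (sb a)
  have e : ∑ i, ∑ j, Rc (ET T) i j * (sb a i * sb a j) = Rc (ET T) a a := by
    simp [sb, Pi.single_apply]
  rwa [e] at h

theorem dotR_nonneg {A T : Ten} (hA0 : ∀ x y, 0 ≤ quad A x y)
    (hT : IsCurv T) (hT0 : ∀ x y, 0 ≤ quad T x y) : 0 ≤ dotR A (ET T) :=
  tr_psd (Rc_psd hA0) (Rc_symm' (ET_pair hT.pair)) (Rc_psd (quad_ET_nonneg hT hT0))

end Pool.Agent.TH570.Hopf
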