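import Pool.Agent.TH570.Hopf.Unit

/-!
# Vector space forms of the lower bounds
-/

set_option autoImplicit false

open scoped BigOperators

namespace Pool.Agent.TH570.Hopf

open Hopf6

section
variable {V : Type*} [NormedAddCommGroup V] [InnerProductSpace ℝ V]

/-- all sectional curvatures are at least `a` -/
def SecGe (R : V → V → V → V → ℝ) (a : ℝ) : Prop :=
  ∀ x y : V, ‖x‖ = 1 → ‖y‖ = 1 → inner ℝ x y = 0 → a ≤ R x y x y

/-- all sectional curvatures are at most `a` -/
def SecLe (R : V → V → V → V → ℝ) (a : ℝ) : Prop :=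
  ∀ x y : V, ‖x‖ = 1 → ‖y‖ = 1 → inner ℝ x y = 0 → R x y x y ≤ a

/-- the Ricci curvature in the direction `x`, computed in the orthonormal basis `e` -/
noncomputable def ric (e : OrthonormalBasis (Fin 6) ℝ V) (R : V → V → V → V → ℝ) (x : V) : ℝ :=
  ∑ a, R x (e a) x (e a)

theorem sec_ge {R : V → V → V → V → ℝ} (hR : AlgCurv R) {a : ℝ} (h : SecGe R a) (x y : V) :
    a * (‖x‖ ^ 2 * ‖y‖ ^ 2 - inner ℝ x y ^ 2) ≤ R x y x y := by
  have a2 : ∀ u v v' u' w, R u (v + v') u' w = R u v u' w + R u v' u' w := by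
    intro u v v' u' w
    rw [hR.anti (v + v') u u' w, hR.add, hR.anti v u u' w, hR.anti v' u u' w]
    ring
  have m1 : ∀ (t : ℝ) u v u' w, R (t • u) v u' w = t * R u v u' w := hR.smul
  have m2 : ∀ (t : ℝ) u v u' w, R u (t • v) u' w = t * R u v u' w := by
    intro t u v u' w
    rw [hR.anti (t • v) u u' w, hR.smul, hR.anti v u u' w]
    ring
  have a4 : ∀ u v u' w w', R u v u' (w + w') = R u v u' w + R u v u' w' := by
    intro u v u' w w'
    rw [hR.pair u' (w + w') u v, a2, hR.pair u' w u v, hR.pair u' w' u v]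
  have m3 : ∀ (t : ℝ) u v u' w, R u v (t • u') w = t * R u v u' w := by
    intro t u v u' w
    rw [hR.pair (t • u') w u v, m1, hR.pair u' w u v]
  have m4 : ∀ (t : ℝ) u v u' w, R u v u' (t • w) = t * R u v u' w := by
    intro t u v u' w
    rw [hR.pair u' (t • w) u v, m2, hR.pair u' w u v]
  -- unit vectors
  have key : ∀ x y : V, ‖x‖ = 1 → a * (‖y‖ ^ 2 - inner ℝ x y ^ 2) ≤ R x y x y := by
    intro x y hx
    set t : ℝ := inner ℝ x y with ht
    set z : V := y - t • x with hz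
    have hxx : inner ℝ x x = (1 : ℝ) := by rw [real_inner_self_eq_norm_sq, hx]; norm_num
    have hxz : inner ℝ x z = 0 := by
      rw [hz, inner_sub_right, inner_smul_right, hxx, ← ht]
      ring
    have hnz : ‖z‖ ^ 2 = ‖y‖ ^ 2 - t ^ 2 := by
      rw [hz, norm_sub_sq_real, inner_smul_right, real_inner_comm, ← ht, norm_smul, hx]
      rw [mul_one, Real.norm_eq_abs, sq_abs]
      ring
    have hy : y = z + t • x := by rw [hz]; abel
    have hRz : R x y x y = R x z x z := by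
      rw [hy]
      simp only [a2, m2, a4, m4, R_xx hR, R_xx' hR]
      ring
    rw [hRz, ← hnz]
    rcases eq_or_ne z 0 with h0 | h0
    · rw [h0]
      have h00 : R x 0 x 0 = 0 := by
        have := m4 0 x 0 x 0
        rw [zero_smul, zero_mul] at this
        exact this
      rw [h00]
      simp
    · have hn : ‖z‖ ≠ 0 := norm_ne_zero_iff.2 h0
      have h1 := h x (‖z‖⁻¹ • z) hx (by rw [norm_smul, norm_inv, norm_norm, inv_mul_cancel₀ hn])
        (by rw [inner_smul_right, hxz, mul_zero])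
      simp only [m2, m4] at h1
      have hp : 0 < ‖z‖ ^ 2 := by positivity
      have e1 : ‖z‖⁻¹ * (‖z‖⁻¹ * R x z x z) * ‖z‖ ^ 2 = R x z x z := by
        field_simp
      rw [← e1]
      exact mul_le_mul_of_nonneg_right h1 hp.le
  rcases eq_or_ne x 0 with h0 | h0
  · rw [h0]
    have h00 : R 0 y 0 y = 0 := by
      have := m1 0 0 y 0 y
      rw [zero_smul, zero_mul] at this
      exact this
    rw [h00]
    simp
  · have hn : ‖x‖ ≠ 0 := norm_ne_zero_iff.2 h0
    have h1 := key (‖x‖⁻¹ • x) y (by rw [norm_smul, norm_inv, norm_norm, inv_mul_cancel₀ hn])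
    rw [m1, m3, real_inner_smul_left] at h1
    have hp : 0 < ‖x‖ ^ 2 := by positivity
    have h2 := mul_le_mul_of_nonneg_right h1 hp.le
    calc a * (‖x‖ ^ 2 * ‖y‖ ^ 2 - inner ℝ x y ^ 2)
        = a * (‖y‖ ^ 2 - (‖x‖⁻¹ * inner ℝ x y) ^ 2) * ‖x‖ ^ 2 := by
          field_simp
      _ ≤ ‖x‖⁻¹ * (‖x‖⁻¹ * R x y x y) * ‖x‖ ^ 2 := h2
      _ = R x y x y := by field_simp

variable (e : OrthonormalBasis (Fin 6) ℝ V) {R : V → V → V → V → ℝ}

theorem area2_vc (x y : Fin 6 → ℝ) :
    ‖vc e x‖ ^ 2 * ‖vc e y‖ ^ 2 - inner ℝ (vc e x) (vc e y) ^ 2 = area2 x y := by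
  rw [vc_norm, vc_norm, vc_inner]
  rfl

theorem quad_ge (hR : AlgCurv R) {a : ℝ} (h : SecGe R a) (x y : Fin 6 → ℝ) :
    a * area2 x y ≤ quad (tn e R) x y := by
  rw [quad_tn e hR, ← area2_vc e]
  exact sec_ge hR h _ _

theorem quad_le (hR : AlgCurv R) {a : ℝ} (h : SecLe R a) (x y : Fin 6 → ℝ) :
    quad (tn e R) x y ≤ a * area2 x y := by
  rw [quad_tn e hR, ← area2_vc e]
  have h1 := sec_ge (neg_curv hR) (a := -a) (fun x y hx hy hxy => neg_le_neg (h x y hx hy hxy))
    (vc e x) (vc e y)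
  linarith

theorem ric_tn (hR : AlgCurv R) (v : Fin 6 → ℝ) :
    ∑ a, ∑ b, Rc (tn e R) a b * (v a * v b) = ric e R (vc e v) := by
  unfold ric
  have h : ∀ c, R (vc e v) (e c) (vc e v) (e c) =
      ∑ a, ∑ b, R (e a) (e c) (e b) (e c) * (v a * v b) := by
    intro c
    rw [lin1 e hR v]
    refine Finset.sum_congr rfl fun a _ => ?_
    rw [lin3 e hR v, Finset.mul_sum]
    refine Finset.sum_congr rfl fun b _ => ?_
    ring
  simp only [h]
  symm
  rw [Finset.sum_comm]
  refine Finset.sum_congr rfl fun a _ => ?_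
  rw [Finset.sum_comm]
  refine Finset.sum_congr rfl fun b _ => ?_
  unfold Rc tn
  rw [Finset.sum_mul]

theorem ric_le (hR : AlgCurv R) {r : ℝ} (h : ∀ x : V, ‖x‖ = 1 → ric e R x ≤ r)
    (v : Fin 6 → ℝ) : ∑ a, ∑ b, Rc (tn e R) a b * (v a * v b) ≤ r * ∑ a, v a ^ 2 := by
  rw [ric_tn e hR, ← vc_norm e v]
  have m1 : ∀ (t : ℝ) u v u' w, R (t • u) v u' w = t * R u v u' w := hR.smul
  have m3 : ∀ (t : ℝ) u v u' w, R u v (t • u') w = t * R u v u' w := by
    intro t u v u' w
    rw [hR.pair (t • u') w u v, m1, hR.pair u' w u v]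
  have hs : ∀ (t : ℝ) (x : V), ric e R (t • x) = t ^ 2 * ric e R x := by
    intro t x
    unfold ric
    rw [Finset.mul_sum]
    refine Finset.sum_congr rfl fun a _ => ?_
    rw [m1, m3]
    ring
  set x := vc e v with hx
  rcases eq_or_ne x 0 with h0 | h0
  · have h1 := hs 0 0
    rw [zero_smul] at h1
    rw [h0, h1]
    simp
  · have hn : ‖x‖ ≠ 0 := norm_ne_zero_iff.2 h0
    have h1 := h (‖x‖⁻¹ • x) (by rw [norm_smul, norm_inv, norm_norm, inv_mul_cancel₀ hn])
    rw [hs] at h1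
    have hp : 0 < ‖x‖ ^ 2 := by positivity
    have h2 := mul_le_mul_of_nonneg_right h1 hp.le
    calc ric e R x = ‖x‖⁻¹ ^ 2 * ric e R x * ‖x‖ ^ 2 := by field_simp
      _ ≤ _ := h2

/-- the pointwise lower bound for curvature between `0` and `c` -/
theorem gb_mean (hR : AlgCurv R) {c : ℝ} (hc : 0 ≤ c) (h : Hopf6.SecIn R 0 c) :
    576 * c ^ 2 * scalar e R - 11520 * c ^ 3 ≤ gb (tn e R) := by
  have h1 := lower_mean (tn_curv e hR) hc
    (fun x y => by
      have := quad_ge e hR (a := 0) (fun x y hx hy hxy => (h x y hx hy hxy).1) x y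
      rwa [zero_mul] at this)
    (quad_le e hR fun x y hx hy hxy => (h x y hx hy hxy).2)
  rwa [sc_tn] at h1

/-- the pointwise lower bound for curvature at least `c` and Ricci at most `14 c` -/
theorem gb_ric (hR : AlgCurv R) {c : ℝ} (hc : 0 ≤ c) (h : SecGe R c)
    (hr : ∀ x : V, ‖x‖ = 1 → ric e R x ≤ 14 * c) :
    576 * c ^ 2 * scalar e R - 11520 * c ^ 3 ≤ gb (tn e R) := by
  have h1 := lower_ric (tn_curv e hR) hc (quad_ge e hR h) (ric_le e hR hr)
  rwa [sc_tn] at h1

/-- `2 / vol(S⁶)`, the Gauss-Bonnet-Chern integrand of constant curvature one -/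
noncomputable def kap6 : ℝ := 15 / (8 * Real.pi ^ 3)

theorem kap6_pos : 0 < kap6 := by
  unfold kap6
  have := Real.pi_pos
  positivity

theorem gbc_low (x : ℝ) (R : V → V → V → V → ℝ) (h : 5760 * x ≤ gb (tn e R)) :
    kap6 * x ≤ Hopf6.gbc e R := by
  have hpi := Real.pi_pos
  rw [gbc_eq]
  calc kap6 * x = 1 / ((8 * Real.pi) ^ 3 * 6) * (5760 * x) := by
        unfold kap6
        field_simp
        ring
    _ ≤ _ := mul_le_mul_of_nonneg_left h (by positivity)

/-- the pointwise bound for curvature between `0` and `c` -/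
theorem mean_bound_pos (hR : AlgCurv R) {c : ℝ} (hc : 0 ≤ c) (h : Hopf6.SecIn R 0 c) :
    kap6 * (c ^ 2 * (scalar e R / 10 - 2 * c)) ≤ Hopf6.gbc e R := by
  refine gbc_low e _ R ?_
  calc 5760 * (c ^ 2 * (scalar e R / 10 - 2 * c)) =
      576 * c ^ 2 * scalar e R - 11520 * c ^ 3 := by ring
    _ ≤ _ := gb_mean e hR hc h

/-- the pointwise bound for curvature at least `c` and Ricci curvature at most `14 c` -/
theorem ric_bound_pos (hR : AlgCurv R) {c : ℝ} (hc : 0 ≤ c) (h : SecGe R c)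
    (hr : ∀ x : V, ‖x‖ = 1 → ric e R x ≤ 14 * c) :
    kap6 * (c ^ 2 * (scalar e R / 10 - 2 * c)) ≤ Hopf6.gbc e R := by
  refine gbc_low e _ R ?_
  calc 5760 * (c ^ 2 * (scalar e R / 10 - 2 * c)) =
      576 * c ^ 2 * scalar e R - 11520 * c ^ 3 := by ring
    _ ≤ _ := gb_ric e hR hc h hr

theorem scalar_neg (R : V → V → V → V → ℝ) :
    scalar e (fun x y z w => - R x y z w) = - scalar e R := by
  simp [scalar]

theorem gbc_neg (R : V → V → V → V → ℝ) :
    Hopf6.gbc e (fun x y z w => - R x y z w) = - Hopf6.gbc e R := by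
  rw [gbc_eq, gbc_eq, gb_neg]
  ring

/-- the pointwise bound for curvature between `-c` and `0` -/
theorem mean_bound_neg (hR : AlgCurv R) {c : ℝ} (hc : 0 ≤ c) (h : Hopf6.SecIn R (-c) 0) :
    Hopf6.gbc e R ≤ kap6 * (c ^ 2 * (scalar e R / 10 + 2 * c)) := by
  have h1 := mean_bound_pos e (neg_curv hR) hc (neg_sec (by rwa [neg_zero]))
  rw [scalar_neg, gbc_neg] at h1
  have h2 : kap6 * (c ^ 2 * (-scalar e R / 10 - 2 * c)) =
      -(kap6 * (c ^ 2 * (scalar e R / 10 + 2 * c))) := by ring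
  rw [h2] at h1
  linarith

/-- the pointwise bound for curvature at most `-c` and Ricci curvature at least `-14 c` -/
theorem ric_bound_neg (hR : AlgCurv R) {c : ℝ} (hc : 0 ≤ c) (h : SecLe R (-c))
    (hr : ∀ x : V, ‖x‖ = 1 → -(14 * c) ≤ ric e R x) :
    Hopf6.gbc e R ≤ kap6 * (c ^ 2 * (scalar e R / 10 + 2 * c)) := by
  have h1 := ric_bound_pos e (neg_curv hR) hc
    (fun x y hx hy hxy => by
      have := h x y hx hy hxy
      linarith)
    (fun x hx => by
      have h1 := hr x hx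
      have h2 : ric e (fun x y z w => - R x y z w) x = - ric e R x := by
        simp [ric]
      rw [h2]
      linarith)
  rw [scalar_neg, gbc_neg] at h1
  have h2 : kap6 * (c ^ 2 * (-scalar e R / 10 - 2 * c)) =
      -(kap6 * (c ^ 2 * (scalar e R / 10 + 2 * c))) := by ring
  rw [h2] at h1
  linarith

end

/-! ### the extremal tensors -/

/-- Euclidean space of dimension six -/
abbrev E6 := EuclideanSpace ℝ (Fin 6)

/-- the degenerate metric `g - t e₀ ⊗ e₀` -/
noncomputable def hh (t : ℝ) (x z : E6) : ℝ := inner ℝ x z - t * (x 0 * z 0)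

/-- the extremal curvature tensors (`t = 0`: hyperbolic space, `t = 1`: the product of hyperbolic
five-space and a line) -/
noncomputable def ext6 (c t : ℝ) (x y z w : E6) : ℝ :=
  -(c * (hh t x z * hh t y w - hh t x w * hh t y z))

theorem hh_add (t : ℝ) (x x' z : E6) : hh t (x + x') z = hh t x z + hh t x' z := by
  unfold hh
  rw [inner_add_left, PiLp.add_apply]
  ring

theorem hh_smul (t s : ℝ) (x z : E6) : hh t (s • x) z = s * hh t x z := by
  unfold hh
  rw [inner_smul_left, PiLp.smul_apply]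
  simp
  ring

theorem hh_comm (t : ℝ) (x z : E6) : hh t x z = hh t z x := by
  unfold hh
  rw [real_inner_comm]
  ring

theorem ext6_curv (c t : ℝ) : AlgCurv (ext6 c t) := by
  refine ⟨fun x x' y z w => ?_, fun s x y z w => ?_, fun x y z w => ?_, fun x y z w => ?_,
    fun x y z w => ?_⟩
  · unfold ext6
    simp only [hh_add]
    ring
  · unfold ext6
    simp only [hh_smul]
    ring
  · unfold ext6
    ring
  · unfold ext6
    rw [hh_comm t z x, hh_comm t w y, hh_comm t z y, hh_comm t w x]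
    ring
  · unfold ext6
    rw [hh_comm t z x, hh_comm t z y, hh_comm t y x]
    ring

theorem hh_basis (t : ℝ) (a b : Fin 6) :
    hh t (EuclideanSpace.basisFun (Fin 6) ℝ a) (EuclideanSpace.basisFun (Fin 6) ℝ b) =
      (if a = 0 then 1 - t else 1) * (if a = b then 1 else 0) := by
  unfold hh
  have h1 : inner ℝ (EuclideanSpace.basisFun (Fin 6) ℝ a) (EuclideanSpace.basisFun (Fin 6) ℝ b) =
      if a = b then (1 : ℝ) else 0 :=
    orthonormal_iff_ite.1 (EuclideanSpace.basisFun (Fin 6) ℝ).orthonormal a b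
  rw [h1]
  simp only [EuclideanSpace.basisFun_apply, EuclideanSpace.single_apply]
  by_cases hab : a = b
  · subst hab
    by_cases ha : (0 : Fin 6) = a
    · simp [← ha]
    · simp [ha, Ne.symm ha]
  · by_cases ha : (0 : Fin 6) = a
    · have hb : (0 : Fin 6) ≠ b := fun h => hab (ha ▸ h)
      simp [hab, hb]
    · simp [hab, ha]

/-- `1 - t` at zero and `1` elsewhere -/
def kk (t : ℝ) (a : Fin 6) : ℝ := if a = 0 then 1 - t else 1

theorem tn_ext (c t : ℝ) (a b i j : Fin 6) :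
    tn (EuclideanSpace.basisFun (Fin 6) ℝ) (ext6 c t) a b i j =
      -c * (kk t a * kk t b * UT a b i j) := by
  unfold tn ext6 UT
  simp only [hh_basis]
  unfold kk
  ring

theorem prod_kk (t : ℝ) (σ : Equiv.Perm (Fin 6)) :
    kk t (σ 0) * kk t (σ 1) * (kk t (σ 2) * kk t (σ 3)) * (kk t (σ 4) * kk t (σ 5)) = 1 - t := by
  have h := Equiv.prod_comp σ (kk t)
  rw [Fin.prod_univ_six, Fin.prod_univ_six] at h
  have h0 : kk t 0 * kk t 1 * kk t 2 * kk t 3 * kk t 4 * kk t 5 = 1 - t := by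
    simp [kk]
  rw [h0] at h
  rw [← h]
  ring

theorem gb_ext (c t : ℝ) :
    gb (tn (EuclideanSpace.basisFun (Fin 6) ℝ) (ext6 c t)) = -(5760 * c ^ 3 * (1 - t)) := by
  have hU : G3 UT UT UT = 5760 := by
    rw [G3_UT2 UT_curv, sc_UT]
    norm_num
  have h1 : gb (tn (EuclideanSpace.basisFun (Fin 6) ℝ) (ext6 c t)) =
      -(c ^ 3 * (1 - t)) * G3 UT UT UT := by
    rw [gb_G3]
    unfold G3
    simp only [tn_ext, Finset.mul_sum]
    refine Finset.sum_congr rfl fun σ _ => Finset.sum_congr rfl fun τ _ => ?_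
    rw [← prod_kk t σ]
    ring
  rw [h1, hU]
  ring

theorem scalar_ext (c t : ℝ) :
    scalar (EuclideanSpace.basisFun (Fin 6) ℝ) (ext6 c t) = -((30 - 10 * t) * c) := by
  have h1 : scalar (EuclideanSpace.basisFun (Fin 6) ℝ) (ext6 c t) =
      ∑ i, ∑ j, -c * (kk t i * kk t j * UT i j i j) := by
    unfold scalar
    refine Finset.sum_congr rfl fun i _ => Finset.sum_congr rfl fun j _ => ?_
    exact tn_ext c t i j i j
  rw [h1]
  simp only [UT, kk, Fin.sum_univ_six]
  simp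
  ring

theorem ext_sec {c t : ℝ} (hc : 0 ≤ c) (h0 : 0 ≤ t) (h1 : t ≤ 1) :
    Hopf6.SecIn (ext6 c t) (-c) 0 := by
  intro x y hx hy hxy
  have hxx : inner ℝ x x = (1 : ℝ) := by rw [real_inner_self_eq_norm_sq, hx]; norm_num
  have hyy : inner ℝ y y = (1 : ℝ) := by rw [real_inner_self_eq_norm_sq, hy]; norm_num
  have hyx : inner ℝ y x = (0 : ℝ) := by rw [real_inner_comm]; exact hxy
  have e1 : ext6 c t x y x y = -(c * (1 - t * (x 0 ^ 2 + y 0 ^ 2))) := by
    unfold ext6 hh
    rw [hxx, hyy, hxy, hyx]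
    ring
  have h2 : x 0 ^ 2 + y 0 ^ 2 ≤ 1 := by
    -- the vector e₀ minus its projections
    set e0 : E6 := EuclideanSpace.basisFun (Fin 6) ℝ 0 with he0
    have i1 : inner ℝ e0 x = x 0 := by
      rw [he0, EuclideanSpace.basisFun_apply, EuclideanSpace.inner_single_left]
      simp
    have i2 : inner ℝ e0 y = y 0 := by
      rw [he0, EuclideanSpace.basisFun_apply, EuclideanSpace.inner_single_left]
      simp
    have i0 : inner ℝ e0 e0 = (1 : ℝ) := by
      rw [real_inner_self_eq_norm_sq, (EuclideanSpace.basisFun (Fin 6) ℝ).norm_eq_one]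
      norm_num
    have i1' : inner ℝ x e0 = x 0 := by rw [real_inner_comm]; exact i1
    have i2' : inner ℝ y e0 = y 0 := by rw [real_inner_comm]; exact i2
    have h3 : 0 ≤ inner ℝ (e0 - x 0 • x - y 0 • y) (e0 - x 0 • x - y 0 • y) :=
      real_inner_self_nonneg
    have h4 : inner ℝ (e0 - x 0 • x - y 0 • y) (e0 - x 0 • x - y 0 • y) =
        1 - (x 0 ^ 2 + y 0 ^ 2) := by
      simp only [inner_sub_left, inner_sub_right, inner_smul_left, inner_smul_right, i0, i1, i2,
        i1', i2', hxx, hyy, hxy, hyx, conj_trivial]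
      ring
    rw [h4] at h3
    linarith
  have h5 : 0 ≤ x 0 ^ 2 + y 0 ^ 2 := by positivity
  have h6 : 0 ≤ t * (x 0 ^ 2 + y 0 ^ 2) := mul_nonneg h0 h5
  have h7 : t * (x 0 ^ 2 + y 0 ^ 2) ≤ 1 := by nlinarith
  rw [e1]
  constructor
  · nlinarith
  · have : 0 ≤ c * (1 - t * (x 0 ^ 2 + y 0 ^ 2)) := mul_nonneg hc (by linarith)
    linarith

theorem gbc_ext (c t : ℝ) :
    Hopf6.gbc (EuclideanSpace.basisFun (Fin 6) ℝ) (ext6 c t) =
      kap6 * (c ^ 2 * (scalar (EuclideanSpace.basisFun (Fin 6) ℝ) (ext6 c t) / 10 + 2 * c)) := by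
  have hpi := Real.pi_pos
  rw [gbc_eq, gb_ext, scalar_ext]
  unfold kap6
  field_simp
  ring

end Pool.Agent.TH570.Hopf
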