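import Pool.Agent.TH570.Hopf.Final
set_option autoImplicit false
open scoped BigOperators
namespace Pool.Agent.TH570.Hopf
open Hopf6
variable {V : Type*} [NormedAddCommGroup V] [InnerProductSpace ℝ V]
variable (e : OrthonormalBasis (Fin 6) ℝ V) {R : V → V → V → V → ℝ}

/-- the scalar curvature of a tensor with sectional curvatures at least `c` -/
theorem scalar_ge (hR : AlgCurv R) {c : ℝ} (h : SecGe R c) : 30 * c ≤ scalar e R := by
  have h1 : ∀ i j : Fin 6, (if i = j then 0 else c) ≤ R (e i) (e j) (e i) (e j) := by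
    intro i j
    by_cases hij : i = j
    · rw [if_pos hij, hij, R_xx hR]
    · rw [if_neg hij]
      exact h (e i) (e j) (e.norm_eq_one i) (e.norm_eq_one j) (e.orthonormal.2 hij)
  have h2 : ∑ i : Fin 6, ∑ j : Fin 6, (if i = j then 0 else c) ≤ scalar e R :=
    Finset.sum_le_sum fun i _ => Finset.sum_le_sum fun j _ => h1 i j
  refine le_trans (le_of_eq ?_) h2
  simp only [Fin.sum_univ_six]
  simp
  ring

end Pool.Agent.TH570.Hopf
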